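import Mathlib
import Pool.Agent.Lib.H28R.W12
import Pool.Agent.Lib.H55K.BH1

open NumberField IsDedekindDomain WeierstrassCurve

namespace H28T

open H55P H55R
open H55K H55K.TQ

/-- Chunk CB2A (S/M). K any number field in which p is unramified, v a prime of K, π in v, π divides p: π is not in v^2 (unr_iff for K), so the valuation of π is exp(-1): valuation_of_algebraMap, intValuation_le_pow_iff_mem (or H55R.ord_int and BF1_val: ord v π = 1). -/
theorem cb2a_val {p : ℕ} (hp : p.Prime) {K : Type} [Field K] [NumberField K] (hU : H55P.UnrP p K) (v : Pl K)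
    {x : 𝓞 K} (hx : x ∣ (p : 𝓞 K)) (hv : x ∈ v.asIdeal) : v.valuation K (x : K) = WithZero.exp (-1 : ℤ) := by
  have hp0 : (p : 𝓞 K) ≠ 0 := by exact_mod_cast hp.ne_zero
  have hx0 : x ≠ 0 := by
    rintro rfl
    exact hp0 (zero_dvd_iff.1 hx)
  have hxK : (x : K) ≠ 0 := by
    intro h
    exact hx0 (RingOfIntegers.coe_injective (h.trans (map_zero (algebraMap (𝓞 K) K)).symm))
  have h1 : ((1 : ℕ) : ℤ) ≤ ord v (Units.mk0 (x : K) hxK) := by
    rw [ord_int v x _ (Units.val_mk0 hxK), pow_one]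
    exact hv
  have h2 : ¬ ((2 : ℕ) : ℤ) ≤ ord v (Units.mk0 (x : K) hxK) := by
    rw [ord_int v x _ (Units.val_mk0 hxK)]
    intro h
    obtain ⟨c, hc⟩ := hx
    refine (unr_iff hp).1 hU v ?_
    rw [hc]
    exact (v.asIdeal ^ 2).mul_mem_right c h
  have h3 := BF1_val v (Units.mk0 (x : K) hxK)
  have h4 : ord v (Units.mk0 (x : K) hxK) = 1 := by
    push_cast at h1 h2
    omega
  rw [Units.val_mk0, h4] at h3
  exact h3

/-- Chunk CB2A (S/M). A number field with a primitive p-th root of unity, in which a prime W has ramification index 1 over the prime below in K, K unramified at p: contradiction for p ≥ 3. W contains p. v = W.under (𝓞 K): v.valuation p = exp(-1) (cb2a_val), so W.valuation p = exp(-1) (H55R.ord_map with es = 1, BF1_val; as in the end of H55K/K6B.lean). On the other hand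
p = unit * (1 - ζ)^(p-1) : IsPrimitiveRoot: H28R.W12_p2 in H28R/W12.lean or IsPrimitiveRoot.toInteger... gives W.valuation p = W.valuation (1 - ζ)^(p-1), so -1 is a multiple of p - 1 ≥ 2. See the port of not_cyc in H28G/K6.lean and H28R/W12.lean. -/
theorem cb2a_ram {p : ℕ} (hp : p.Prime) (h3 : 3 ≤ p) {K C : Type} [Field K] [NumberField K] [Field C] [NumberField C]
    [Algebra K C] [IsGalois K C] (hU : H55P.UnrP p K) {ζ : C} (hζ : IsPrimitiveRoot ζ p) (W : Pl C) (hW : (p : 𝓞 C) ∈ W.asIdeal) :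
    es K C (W.under (𝓞 K)) ≠ 1 := by
  intro he
  have hpv : (p : 𝓞 K) ∈ (W.under (𝓞 K)).asIdeal := by
    show algebraMap (𝓞 K) (𝓞 C) (p : 𝓞 K) ∈ W.asIdeal
    rw [map_natCast]
    exact hW
  have h1 := cb2a_val hp hU (W.under (𝓞 K)) dvd_rfl hpv
  have hpK : ((p : 𝓞 K) : K) = (p : K) := by push_cast; rfl
  have hp0 : (p : K) ≠ 0 := by exact_mod_cast hp.ne_zero
  rw [hpK] at h1
  have h2 : ord (W.under (𝓞 K)) (Units.mk0 (p : K) hp0) = 1 := by
    have h3 := BF1_val (W.under (𝓞 K)) (Units.mk0 (p : K) hp0)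
    rw [Units.val_mk0, h1, WithZero.exp_inj] at h3
    omega
  have h4 := ord_map W (W.under (𝓞 K)) rfl (Units.mk0 (p : K) hp0)
  rw [he, h2] at h4
  have h5 := BF1_val W (Units.map (algebraMap K C : K →* C) (Units.mk0 (p : K) hp0))
  have h6 : ((Units.map (algebraMap K C : K →* C) (Units.mk0 (p : K) hp0) : Cˣ) : C) = (p : C) := by
    show algebraMap K C (p : K) = _
    rw [map_natCast]
  rw [h4, h6] at h5
  have h7 : W.valuation C (p : C) = WithZero.exp (-1 : ℤ) := by
    rw [h5]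
    norm_num
  have hv1 : W.valuation C ζ = 1 := by
    refine H28R.W12_root W hp.ne_zero ?_
    rw [← map_pow, hζ.pow_eq_one, map_one]
  have h8 := H28R.W12_p2 W hp hv1 hζ
  have hne : (1 : C) - ζ ≠ 0 := sub_ne_zero.2 (hζ.ne_one hp.one_lt).symm
  obtain ⟨a, ha⟩ : ∃ a : ℤ, W.valuation C (1 - ζ) = WithZero.exp (-a) := by
    have h9 := BF1_val W (Units.mk0 (1 - ζ) hne)
    exact ⟨_, h9⟩
  rw [map_div₀, map_pow, h7, ha] at h8
  have h9 : WithZero.exp (-1 : ℤ) ≤ WithZero.exp (-a) ^ (p - 1) := by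
    have hpos : (0 : WithZero (Multiplicative ℤ)) < WithZero.exp (-a) ^ (p - 1) := pow_pos (WithZero.exp_pos) _
    rwa [div_le_one₀ hpos] at h8
  rw [← WithZero.exp_nsmul, WithZero.exp_le_exp] at h9
  -- the other estimate
  have hodd : Odd p := hp.odd_of_ne_two (by omega)
  have hζi : IsIntegral ℤ ζ := hζ.isIntegral hp.pos
  obtain ⟨z, hz⟩ : ∃ z : 𝓞 C, (z : C) = ζ := ⟨⟨ζ, hζi⟩, rfl⟩
  have hzp : z ^ p = 1 := by
    apply RingOfIntegers.coe_injective
    rw [map_pow, map_one]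
    have h12 : (z : C) ^ p = 1 := by rw [hz, hζ.pow_eq_one]
    exact h12
  obtain ⟨r, hr⟩ := exists_add_pow_prime_eq hp (1 : 𝓞 C) (-z)
  have h10 : (1 + -z) ^ p = (p : 𝓞 C) * (-z * r) := by
    rw [hr, one_pow, hodd.neg_pow, hzp]
    ring
  have h11 : (1 - ζ) ^ p = (p : C) * ((-z * r : 𝓞 C) : C) := by
    have h12 := congrArg (algebraMap (𝓞 C) C) h10
    rw [map_pow, map_add, map_neg, map_one, map_mul, map_natCast] at h12
    rw [← hz, sub_eq_add_neg]
    exact h12
  have h13 : W.valuation C ((1 - ζ) ^ p) ≤ WithZero.exp (-1 : ℤ) := by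
    rw [h11, map_mul, h7]
    exact mul_le_of_le_one_right' (W.valuation_le_one _)
  rw [map_pow, ha, ← WithZero.exp_nsmul, WithZero.exp_le_exp] at h13
  simp only [nsmul_eq_mul] at h9 h13
  have hpp : ((p - 1 : ℕ) : ℤ) = (p : ℤ) - 1 := by
    have := hp.one_lt
    omega
  rw [hpp] at h9
  have hp3 : (3 : ℤ) ≤ (p : ℤ) := by exact_mod_cast h3
  have ha1 : 1 ≤ a := by
    by_contra hcon
    have h14 : a ≤ 0 := by omega
    nlinarith
  nlinarith

end H28T
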