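import Mathlib
import Pool.Agent.Lib.H28R.Defs

/-!
# H28T: realisation of p-groups over an arbitrary number field F, with ramification in a given set G of primes (definitions)

See PROOF.md.
-/

open NumberField IsDedekindDomain

namespace H28T

open H28R
open H55P H55R

variable {F : Type} [Field F] [NumberField F]

/-- K/F is Galois of p-power degree and unramified outside the primes in G. -/
def ExtG (G : HeightOneSpectrum (𝓞 F) → Prop) (p : ℕ) (K : Type) [Field K] [NumberField K] [Algebra F K] : Prop :=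
  IsGalois F K ∧ (∃ k : ℕ, Module.finrank F K = p ^ k) ∧
    ∀ (w : HeightOneSpectrum (𝓞 K)) (v : HeightOneSpectrum (𝓞 F)), v.asIdeal = w.asIdeal.under (𝓞 F) → ¬ G v →
      w.asIdeal.ramificationIdx (𝓞 F) = 1

/-- The same, and all ramified primes have norm greater than B. -/
def PB (G : HeightOneSpectrum (𝓞 F) → Prop) (p : ℕ) (K : Type) [Field K] [NumberField K] [Algebra F K] (B : ℕ) : Prop :=
  ExtG G p K ∧ ∀ w : HeightOneSpectrum (𝓞 K), w.asIdeal.ramificationIdx (𝓞 F) ≠ 1 →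
    B < Ideal.absNorm w.asIdeal

/-- C = K(ζ), ζ a primitive p-th root of unity, K/F Galois of p-power degree: the group of C/F is the direct product of
FixZ F ζ (isomorphic to the group of K/F) and the group of C/K. -/
structure Cyc (F : Type) [Field F] [NumberField F] (p : ℕ) (K C : Type) [Field K] [NumberField K] [Field C] [NumberField C]
    [Algebra F K] [Algebra F C] [Algebra K C] [IsScalarTower F K C] (ζ : C) : Prop where
  galK : IsGalois F K
  gal : IsGalois F C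
  prim : IsPrimitiveRoot ζ p
  gen : ∀ σ : C ≃ₐ[K] C, σ ζ = ζ → σ = 1
  deg : Module.finrank K C ∣ p - 1
  pow : ∃ k : ℕ, Module.finrank F K = p ^ k
  iso : ∃ e : FixZ F ζ ≃* (K ≃ₐ[F] K), ∀ (σ : FixZ F ζ) (x : K),
    (σ : C ≃ₐ[F] C) (algebraMap K C x) = algebraMap K C (e σ x)
  comm : ∀ (σ : FixZ F ζ) (δ : C ≃ₐ[K] C) (x : C),
    (σ : C ≃ₐ[F] C) (δ x) = δ ((σ : C ≃ₐ[F] C) x)
  dec : ∀ s : C ≃ₐ[F] C, ∃ (σ : FixZ F ζ) (δ : C ≃ₐ[K] C), ∀ x : C, s x = (σ : C ≃ₐ[F] C) (δ x)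

/-- The prime w of C has degree one over F, is unramified over F, lies over a prime in G, and has norm greater than B. -/
structure Nice (G : HeightOneSpectrum (𝓞 F) → Prop) (p : ℕ) (C : Type) [Field C] [NumberField C] [Algebra F C] (B : ℕ) (w : Pl C) :
    Prop where
  deg : w.asIdeal.inertiaDeg (𝓞 F) = 1
  unr : w.asIdeal.ramificationIdx (𝓞 F) = 1
  good : ∀ v : HeightOneSpectrum (𝓞 F), v.asIdeal = w.asIdeal.under (𝓞 F) → G v
  big : B < Ideal.absNorm w.asIdeal

/-- α is congruent to 1 modulo p^2, and its order is divisible by p except at w and w', two nice primes over different primes of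
F, where it is 1 and -1 modulo p. -/
structure Alp (G : HeightOneSpectrum (𝓞 F) → Prop) (p : ℕ) (C : Type) [Field C] [NumberField C] [Algebra F C] (B : ℕ) (α : Cˣ)
    (w w' : Pl C) : Prop where
  pp : ∃ a : 𝓞 C, (a : C) = α ∧ (p : 𝓞 C) ^ 2 ∣ a - 1
  at1 : (p : ℤ) ∣ ord w α - 1
  at2 : (p : ℤ) ∣ ord w' α + 1
  oth : ∀ P : Pl C, P ≠ w → P ≠ w' → (p : ℤ) ∣ ord P α
  ne : w.asIdeal.under (𝓞 F) ≠ w'.asIdeal.under (𝓞 F)
  nice : Nice G p C B w
  nice' : Nice G p C B w'

/-- γ is as α, with the conjugates of w, w' over K, and is an eigenvector for the group of C/K modulo p-th powers. -/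
structure Gam (G : HeightOneSpectrum (𝓞 F) → Prop) (p : ℕ) (K C : Type) [Field K] [NumberField K] [Field C] [NumberField C]
    [Algebra F K] [Algebra F C] [Algebra K C] [IsScalarTower F K C] (ζ : C) (B : ℕ) (γ : Cˣ)
    (w w' : Pl C) : Prop where
  pp : ∃ a : 𝓞 C, (a : C) = γ ∧ (p : 𝓞 C) ^ 2 ∣ a - 1
  at1 : ¬ (p : ℤ) ∣ ord w γ
  oth : ∀ P : Pl C, (∀ δ : C ≃ₐ[K] C, P ≠ smulP δ w ∧ P ≠ smulP δ w') → (p : ℤ) ∣ ord P γ
  eig : ∀ (δ : C ≃ₐ[K] C) (n : ℕ), δ ζ = ζ ^ n → ∃ z : Cˣ, δ (γ : C) = (γ : C) ^ n * (z : C) ^ p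
  ne : w.asIdeal.under (𝓞 F) ≠ w'.asIdeal.under (𝓞 F)
  nice : Nice G p C B w
  nice' : Nice G p C B w'

/-- There are infinitely many nice primes in all the fields K(ζ), K in the class. -/
def NiceH (G : HeightOneSpectrum (𝓞 F) → Prop) (p : ℕ) : Prop :=
  ∀ (K C : Type) [Field K] [NumberField K] [Field C] [NumberField C] [Algebra F K] [Algebra F C] [Algebra K C]
    [IsScalarTower F K C] (ζ : C), ExtG G p K → Cyc F p K C ζ → ∀ (B : ℕ) (S : Set (Pl C)), S.Finite →
      ∃ w : Pl C, w ∉ S ∧ Nice G p C B w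

end H28T
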