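import Mathlib
import Pool.Agent.Lib.H28T.CB2A
import Pool.Agent.Lib.H28T.Defs
import Pool.Agent.Lib.H55K.K1A
import Pool.Agent.Lib.H55K.K3
import Pool.Agent.Lib.H55K.K4

open NumberField IsDedekindDomain WeierstrassCurve

namespace H28T

open H55P H55R
open H35P (WAB Ker tt)
open H55K H55K.TQ

variable {F : Type} [Field F] [NumberField F] [IQ F] {A B : F} {Om : ℂ} {Ω : Type} [Field Ω] [DecidableEq Ω]
  [Algebra F Ω] {j : Ω →+* ℂ} {act : 𝓞 F →+* AddMonoid.End (Pt (WAB A B) Ω)} {m : Ideal (𝓞 F)}
  {ψ : Ideal (𝓞 F) →*₀ 𝓞 F} {p : ℕ} {K C : Type} [Field K] [NumberField K] [Field C] [NumberField C] [Algebra F K]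
  [Algebra F C] [Algebra K C] [IsScalarTower F K C] [Algebra K Ω] [Algebra C Ω] [IsScalarTower K C Ω]
  [IsScalarTower F K Ω] [IsScalarTower F C Ω]

/-- N is contained in C. -/
theorem cb2_hom [IsAlgClosure F Ω] (N : Type) [Field N] [NumberField N] [Algebra F N] [Algebra K N] [Algebra N Ω]
    [IsScalarTower F K N] [IsScalarTower K N Ω] [IsScalarTower F N Ω]
    (h : ∀ s : Ω ≃ₐ[F] Ω, Fxd C s → Fxd N s) :
    ∃ f : N →ₐ[K] C, ∀ x : N, algebraMap C Ω (f x) = algebraMap N Ω x := by
  choose f hf using fun x : N => mem_of_fxd (F := F) C (algebraMap N Ω x) fun s hs => h s hs x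
  have hinj : Function.Injective (algebraMap C Ω) := (algebraMap C Ω).injective
  refine ⟨{ toFun := f, map_one' := ?_, map_mul' := ?_, map_zero' := ?_, map_add' := ?_, commutes' := ?_ }, hf⟩
  · apply hinj
    rw [hf, map_one, map_one]
  · intro x y
    apply hinj
    rw [hf, map_mul, map_mul, hf, hf]
  · apply hinj
    rw [hf, map_zero, map_zero]
  · intro x y
    apply hinj
    rw [hf, map_add, map_add, hf, hf]
  · intro x
    apply hinj
    rw [hf, ← IsScalarTower.algebraMap_apply K N Ω, ← IsScalarTower.algebraMap_apply K C Ω]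

omit [IQ F] in
theorem cb2_unit {x : 𝓞 F} (h : Nm x = 1) : IsUnit x := by
  unfold H55P.Nm at h
  rwa [Ideal.absNorm_eq_one_iff, Ideal.span_singleton_eq_top] at h

/-- Chunk CB2 (M/L), the port of H28R.not_full (H28R/W3.lean), new proof. The points killed by π are not all defined over C = K(ζ). Suppose they are (hF). N from exists_TFld K (K1A.lean; hπ.ne_zero). v : Pl K a prime containing the image of π (H55R.under_exists for the prime (π) of F), v.valuation K π = exp(-1) (cb2a_val, algebraMap π divides p). The good models hG at valuation rings with V(π) < 1: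
V(p) < 1 (p = π π'), h.good. tot_ram (K3.lean): finrank K N = Nm π - 1. Every s with Fxd C s satisfies Fxd K s and fixes Tor act π (hF), so Fxd N s (TFld.gen); so the image of N in Ω is contained in the image of C (mem_of_fxd, K0B.lean, applied with C in place of N), which gives a K-algebra homomorphism N → C, so finrank K N ≤ finrank K C ≤ p - 1
(hC.deg, Nat.le_of_dvd). Nm π divides Nm p = p^2 (Nm_nat, Nm_mul) and is not 1 (π not a unit, H55K/D0-D1), so Nm π = p (it is ≤ p), finrank K N = p - 1 = finrank K C and the image of N is the image of C (injective K-linear map between spaces of the same dimension): there is ζ' in N with algebraMap N Ω ζ' = algebraMap C Ω ζ, a primitive p-th root of unity.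
π' with p = π π': Nm π' = p is a prime number so π' is not a unit; π does not divide π' (π^2 does not divide p: h.unr for the prime (π), or UnrP). w' : Pl N a prime containing the image of π' (first a prime ideal of F containing π': not a unit). N/K is Galois (TFld.gal). V above w' (exists_abw): V(π) = 1, because the prime of F below w' contains π' and not π:
if it contains π and π' it is span {π} (π prime, maximal) and π ∣ π'; V(p) < 1, so GV A B V (h.good). For s in Inert V with Fxd K s, cong_fix (K4.lean) with β = π: every R in Tor act π is fixed (Inert V s: V(s x - x) < 1 for x in V), so Fxd N s (TFld.gen). unr_of_inert (K0C.lean): es K N (w'.under (𝓞 K)) = 1. This contradicts cb2a_ram (for N, ζ'; p ∈ w'). -/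
theorem cb2_not [IsAlgClosure F Ω] (h : Dta A B Om j act m ψ p) (hU : H55P.UnrP p K) {ζ : C} (hC : Cyc F p K C ζ)
    {π : 𝓞 F} (hπ : Prime π) (hd : π ∣ (p : 𝓞 F)) :
    ¬ ∀ s : Ω ≃ₐ[F] Ω, Fxd C s → ∀ T ∈ Tor act π, ac (WAB A B) s T = T := by
  intro hF
  have hp := h.prime
  have h5 := h.five
  obtain ⟨π', hπ'⟩ := hd
  have hNm : Nm π * Nm π' = p ^ 2 := by
    rw [← Nm_mul, ← hπ', Nm_nat]
  obtain ⟨N, _, _, _, _, _, _, _, _, hN⟩ := exists_TFld h.cma K hπ.ne_zero
  have hgalN : IsGalois K N := hN.gal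
  -- the prime above π
  obtain ⟨v, hv⟩ := under_exists (K := F) (L := K) (⟨Ideal.span {π}, (Ideal.span_singleton_prime hπ.ne_zero).2 hπ, by
    rw [Ne, Ideal.span_singleton_eq_bot]
    exact hπ.ne_zero⟩ : Pl F)
  have hπv : algebraMap (𝓞 F) (𝓞 K) π ∈ v.asIdeal := by
    have h1 : π ∈ (v.under (𝓞 F)).asIdeal := by
      rw [hv]
      exact Ideal.mem_span_singleton_self _
    exact h1
  have hdK : algebraMap (𝓞 F) (𝓞 K) π ∣ (p : 𝓞 K) := by
    refine ⟨algebraMap (𝓞 F) (𝓞 K) π', ?_⟩
    rw [← map_mul, ← hπ', map_natCast]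
  have hval := cb2a_val hp hU v hdK hπv
  have hval' : v.valuation K (algebraMap F K (π : F)) = WithZero.exp (-1 : ℤ) := hval
  have hpΩ : ak Ω (p : 𝓞 F) = (p : Ω) := by
    have e : ((p : 𝓞 F) : F) = (p : F) := by push_cast; rfl
    unfold ak
    rw [e, map_natCast]
  have hmulΩ : ak Ω (p : 𝓞 F) = ak Ω π * ak Ω π' := by
    rw [hπ']
    exact map_mul (algebraMap F Ω) (π : F) (π' : F)
  have hle1 : ∀ (V : ValuationSubring Ω) (a : 𝓞 F), V.valuation (ak Ω a) ≤ 1 := fun V a => k0_int (N := F) V a
  have TR := tot_ram h.cma hπ hN v hval' fun V hV => by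
    apply h.good
    rw [← hpΩ, hmulΩ, map_mul]
    exact mul_lt_one_of_lt_of_le hV (hle1 V π')
  -- N in C
  obtain ⟨f, hf⟩ := cb2_hom (F := F) (K := K) (C := C) (Ω := Ω) N fun s hs =>
    hN.gen s (fun x => by
      have h1 := hs (algebraMap K C x)
      rwa [← IsScalarTower.algebraMap_apply K C Ω] at h1) (hF s hs)
  have hfinC : FiniteDimensional K C := by
    have : IsScalarTower ℚ K C := IsScalarTower.of_algebraMap_eq' (Subsingleton.elim _ _)
    exact Module.Finite.of_restrictScalars_finite ℚ K C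
  have hfinN : FiniteDimensional K N := by
    have : IsScalarTower ℚ K N := IsScalarTower.of_algebraMap_eq' (Subsingleton.elim _ _)
    exact Module.Finite.of_restrictScalars_finite ℚ K N
  have hinj : Function.Injective f.toLinearMap := f.toRingHom.injective
  have hle := LinearMap.finrank_le_finrank_of_injective hinj
  have hdeg : Module.finrank K C ≤ p - 1 := Nat.le_of_dvd (by omega) hC.deg
  rw [TR.deg] at hle
  have hNp : Nm π = p := by
    obtain ⟨i, hi, hi2⟩ := (Nat.dvd_prime_pow hp).1 (Dvd.intro _ hNm)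
    have hile : i = 0 ∨ i = 1 ∨ i = 2 := by omega
    rcases hile with rfl | rfl | rfl
    · rw [pow_zero] at hi2
      exact absurd (cb2_unit hi2) hπ.not_isUnit
    · rwa [pow_one] at hi2
    · have h1 : p * 5 ≤ p ^ 2 := by
        rw [pow_two]
        exact Nat.mul_le_mul_left p h5
      omega
  have hNp' : Nm π' = p := by
    rw [hNp, pow_two] at hNm
    exact Nat.eq_of_mul_eq_mul_left hp.pos hNm
  have heq : Module.finrank K N = Module.finrank K C := by
    have h1 := TR.deg
    rw [hNp] at h1 hle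
    omega
  have hsurj : Function.Surjective f.toLinearMap := (LinearMap.injective_iff_surjective_of_finrank_eq_finrank heq).1 hinj
  obtain ⟨ζ', hζ'⟩ := hsurj ζ
  have hprim : IsPrimitiveRoot ζ' p := by
    refine IsPrimitiveRoot.of_map_of_injective (f := f) ?_ f.toRingHom.injective
    have e : f ζ' = ζ := hζ'
    rw [e]
    exact hC.prim
  -- the prime above π'
  have hnu : ¬ IsUnit π' := by
    intro hu
    have h1 : Nm π' = 1 := by
      unfold H55P.Nm
      rw [Ideal.absNorm_eq_one_iff, Ideal.span_singleton_eq_top]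
      exact hu
    omega
  have hπ0 : π' ≠ 0 := by
    rintro rfl
    rw [mul_zero] at hπ'
    have h1 : p = 0 := by exact_mod_cast hπ'
    omega
  obtain ⟨M, hM, hMπ⟩ := Ideal.exists_le_maximal (Ideal.span {π'}) (by
    rw [Ne, Ideal.span_singleton_eq_top]
    exact hnu)
  have hMm : π' ∈ M := hMπ (Ideal.mem_span_singleton_self _)
  obtain ⟨u, hu⟩ : ∃ u : Pl F, u.asIdeal = M := ⟨⟨M, hM.isPrime, by
    rintro rfl
    exact hπ0 ((Submodule.mem_bot _).1 hMm)⟩, rfl⟩
  have huπ : π ∉ u.asIdeal := by
    intro h1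
    apply h.unr u
    rw [hπ', pow_two]
    exact Ideal.mul_mem_mul h1 (hu ▸ hMm)
  obtain ⟨W, hW⟩ := under_exists (K := F) (L := N) u
  have hpu : (p : 𝓞 F) ∈ u.asIdeal := by
    rw [hπ', hu]
    exact M.mul_mem_left _ hMm
  have hpW : (p : 𝓞 N) ∈ W.asIdeal := by
    have h1 : (p : 𝓞 F) ∈ (W.under (𝓞 F)).asIdeal := by
      rw [hW]
      exact hpu
    have h2 : algebraMap (𝓞 F) (𝓞 N) (p : 𝓞 F) ∈ W.asIdeal := h1
    rwa [map_natCast] at h2
  obtain ⟨V, hV⟩ := exists_abw Ω W
  have hVu : Abw V u := hV.below hW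
  have hπ1 : V.valuation (ak Ω π) = 1 :=
    (hVu.eq_one (π : F)).2 ((HeightOneSpectrum.valuation_eq_one_iff_notMem u).2 huπ)
  have hp1 : V.valuation (p : Ω) < 1 := by
    rw [← hpΩ]
    exact (hVu.lt _).2 ((u.valuation_lt_one_iff_mem _).2 hpu)
  have hes : es K N (W.under (𝓞 K)) = 1 := by
    refine unr_of_inert (F := F) (K := K) hV ?_
    intro s hs hsK
    refine hN.gen s hsK ?_
    intro R hR
    exact cong_fix h.cma (h.good V hp1) hπ1 hR ⟨fun hx => hs _ hx, fun hy => hs _ hy⟩
  exact cb2a_ram hp (by omega) hU hprim W hpW hes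

end H28T
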