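import Mathlib
import Pool.Agent.Lib.H28T.CD
import Pool.Agent.Lib.H55K.BH
import Pool.Agent.Lib.H55K.D1

open NumberField IsDedekindDomain WeierstrassCurve

namespace H28T

open H55P H55R
open H55K H55K.TQ

variable {F : Type} [Field F] [NumberField F] [IQ F] {W₀ : WeierstrassCurve (𝓞 F)} {Om : ℂ}
    {m : Ideal (𝓞 F)} {ψ : Ideal (𝓞 F) →*₀ 𝓞 F} {p : ℕ}

/-- Chunk CB1 (S/M, port of H28R.bad_dvd in H28R/A9.lean with ψ v in place of gen v). p divides the number of points (¬ Gd), which is Nm (1 - ψ v) (hH.deu), 1 - ψ v times its conjugate (mul_cj, D1.lean in H55K), so π divides 1 - ψ v or cj (1 - ψ v) = 1 - cj (ψ v). In the second case: v is not above m (hH.supp: Δ not in v), so v and m are coprime (v maximal),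
v.asIdeal = span {ψ v} (IsHecke.gen, hH.data.hecke), absNorm v = Nm (ψ v) (definition of Nm), ψ v * cj (ψ v) = Nm (ψ v) = 1 modulo π (hd, p ∣ absNorm v - 1, π ∣ p), ψ v - 1 = ψ v (1 - cj (ψ v)) + (ψ v cj (ψ v) - 1). -/
theorem cb1_dvd (hH : BaseH F W₀ Om m ψ) {v : HeightOneSpectrum (𝓞 F)} (hΔ : W₀.Δ ∉ v.asIdeal)
    (hv : (p : 𝓞 F) ∉ v.asIdeal) (hN : p ∣ Ideal.absNorm v.asIdeal - 1) (hg : ¬ Gd W₀ p v) {π : 𝓞 F}
    (hπ : Prime π) (hd : π ∣ (p : 𝓞 F)) : π ∣ ψ v.asIdeal - 1 := by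
  have h1 : p ∣ Nat.card (W₀⁄(𝓞 F ⧸ v.asIdeal)).toAffine.Point := by
    by_contra h
    exact hg ⟨hΔ, hv, h⟩
  rw [hH.deu v hΔ] at h1
  have key : ∀ n : ℕ, p ∣ n → π ∣ (n : 𝓞 F) := by
    rintro n ⟨k, rfl⟩
    rw [Nat.cast_mul]
    exact hd.mul_right _
  have h2 := key _ h1
  rw [← mul_cj] at h2
  rcases hπ.dvd_or_dvd h2 with h4 | h4
  · have e1 : ψ v.asIdeal - 1 = -(1 - ψ v.asIdeal) := by ring
    rw [e1]
    exact h4.neg_right
  · have h5 := key _ hN
    have hm : ¬ m ≤ v.asIdeal := fun h => hΔ ((hH.supp v).2 h)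
    have hcop : IsCoprime v.asIdeal m := by
      rw [Ideal.isCoprime_iff_sup_eq]
      by_contra hne
      obtain ⟨M, hM, hle⟩ := Ideal.exists_le_maximal _ hne
      have h7 : v.asIdeal = M := v.isMaximal.eq_of_le hM.ne_top (le_sup_left.trans hle)
      exact hm (h7 ▸ (le_sup_right.trans hle))
    have h8 : Ideal.absNorm v.asIdeal = H55P.Nm (ψ v.asIdeal) := by
      unfold H55P.Nm
      rw [hH.data.hecke.gen _ hcop]
    have h6 : 1 ≤ Ideal.absNorm v.asIdeal :=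
      Nat.pos_of_ne_zero fun h => v.ne_bot (Ideal.absNorm_eq_zero_iff.1 h)
    rw [Nat.cast_sub h6, h8, ← mul_cj, Nat.cast_one] at h5
    rw [map_sub, map_one] at h4
    have e1 : ψ v.asIdeal - 1 = ψ v.asIdeal * (1 - cj (ψ v.asIdeal)) +
        (ψ v.asIdeal * cj (ψ v.asIdeal) - 1) := by ring
    rw [e1]
    exact dvd_add (h4.mul_left _) h5

/-- Chunk CB1 (S/M). A prime element above p (p is not a unit: Nm p = p^2, H55K.Nm_nat; 𝓞 F is a principal ideal ring: IQ.pid; a maximal ideal containing p is generated by a prime element: Ideal.span_singleton_prime). -/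
theorem cb1_pi (hp : p.Prime) : ∃ π : 𝓞 F, Prime π ∧ π ∣ (p : 𝓞 F) := by
  haveI : IsPrincipalIdealRing (𝓞 F) := IQ.pid
  have h1 : ¬ IsUnit (p : 𝓞 F) := by
    intro h
    have h2 : H55P.Nm (p : 𝓞 F) = 1 := by
      unfold H55P.Nm
      rw [Ideal.span_singleton_eq_top.2 h, Ideal.absNorm_top]
    rw [Nm_nat] at h2
    have h3 : p = 1 := by
      have := Nat.pow_eq_one.1 h2
      rcases this with h | h
      · exact h
      · omega
    exact hp.one_lt.ne' h3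
  have h2 : (p : 𝓞 F) ≠ 0 := by exact_mod_cast hp.ne_zero
  obtain ⟨π, hπ, hd⟩ := WfDvdMonoid.exists_irreducible_factor h1 h2
  exact ⟨π, hπ.prime, hd⟩

end H28T
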