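import Mathlib
import Pool.Agent.Lib.H13S.FR
import Pool.Agent.Lib.H28R.W5
import Pool.Agent.Lib.H55K.K4

open NumberField IsDedekindDomain WeierstrassCurve

namespace H28T

open H55P H55R
open H35P (WAB Ker tt)
open H55K

variable {F : Type} [Field F] [NumberField F] [IQ F] {A B : F} {Om : ℂ} {Ω : Type} [Field Ω] [DecidableEq Ω]
  [Algebra F Ω] {j : Ω →+* ℂ} {act : 𝓞 F →+* AddMonoid.End (Pt (WAB A B) Ω)} {m : Ideal (𝓞 F)}
  {ψ : Ideal (𝓞 F) →*₀ 𝓞 F} {p : ℕ} {C D : Type} [Field C] [NumberField C] [Field D] [NumberField D] [Algebra F C]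
  [Algebra F D] [Algebra C D] [IsScalarTower F C D] [Algebra C Ω] [Algebra D Ω] [IsScalarTower C D Ω]
  [IsScalarTower F C Ω] [IsScalarTower F D Ω]

/-- Chunk CB3A (M). Almost all primes w of C of prime norm with π ∣ ψ(w ∩ F) - 1 split in the field D of the π-torsion over C. S = the primes w of C above the finite sets of h.fin and h.frob, the primes containing p (finite: H28R.W5_fin_mem, finitely many primes above a prime: H28R/H55R above_finite), and primes of C with fs F C ≠ 1 need not be excluded: w has prime norm q, v = w.under (𝓞 F), absNorm w = absNorm v ^ fs so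
absNorm v = q is prime and fs = 1 (H55R.D5_norm, C/F Galois; hgal). Let w be outside S, W : Pl D above w (under_exists), V above W (exists_abw), so V is above w and v (Abw.below). (a) es C D w = 1: unr_of_inert (K0C.lean) with K = C, N = D: s in Inert V with Fxd C s fixes Tor act π: cong_fix (K4.lean), GV A B V by h.fin (v not in the finite set), V(π) = 1 since p not in w and π ∣ p. So Fxd D s (hD.gen).
(b) fs C D w = 1: the Frobenius element: H13S.exists_frob for the field C in place of F? It is stated for F: use instead H28G.K6_frob (K := C) W : τ in Gal(D/C) with τ x - x^q in W for x in 𝓞 D, and H28G.K6_frob_val; we show τ = 1: let s be ANY extension of τ to Ω (exists_lft); it need not be a Frobenius element at V. So: take s0 : Ω ≃ₐ[F] Ω from H13S.exists_frob v V (V(a) < 1 for a in v): s0 x = x^q modulo V for x in V, q = absNorm v. For x in C with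
x integral at w: s0 x = x^q = x modulo V (H28G.pow_norm w: x^q = x modulo w), so triv_of_es (K = F, N = C, es F C v = 1: ADD to S the primes w with es F C (w.under) ≠ 1: H28R.W5_fin_ram has F fixed, port it: H55R.ram_fin F C is general) gives Fxd C s0. h.frob: ac s0 T = act (ψ v) T = T for T in Tor act π (p • T = 0: π ∣ p, see H55K/K7.lean (hT1); V(p) = 1; π ∣ ψ v - 1 and act π T = 0), so Fxd D s0 (hD.gen).
So for y in 𝓞 D: y^q = s0 y = y modulo V, i.e. y^q - y in W (Abw.lt, valuation_lt_one_iff_mem): all elements of the residue field 𝓞 D ⧸ W satisfy x^q = x, so it has at most q elements (H28R.W5_card), absNorm W = q^(fs) ≤ q (D5_norm w W), so fs C D w = 1. Compare the end of H28R/W5.lean (exists_nice) and H55K/K7.lean. -/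
theorem cb3a_split [IsAlgClosure F Ω] [IsGalois F C] (h : Dta A B Om j act m ψ p) {π : 𝓞 F} (hπ : Prime π)
    (hd : π ∣ (p : 𝓞 F)) (hD : TFld act C D π) :
    ∃ S : Set (Pl C), S.Finite ∧ ∀ w : Pl C, w ∉ S → (Ideal.absNorm w.asIdeal).Prime →
      π ∣ ψ (w.under (𝓞 F)).asIdeal - 1 → es C D w = 1 ∧ fs C D w = 1 := by
  have hgalD := hD.gal
  obtain ⟨S1, hS1f, hS1⟩ := h.fin
  obtain ⟨S2, hS2f, hS2⟩ := h.frob
  have hpC : ((p : ℕ) : 𝓞 C) ≠ 0 := Nat.cast_ne_zero.2 h.prime.ne_zero
  have hf1 : {w : Pl C | w.under (𝓞 F) ∈ S1}.Finite :=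
    hS1f.preimage' (f := fun w : Pl C => w.under (𝓞 F)) fun b _ => above_finite b
  have hf2 : {w : Pl C | w.under (𝓞 F) ∈ S2}.Finite :=
    hS2f.preimage' (f := fun w : Pl C => w.under (𝓞 F)) fun b _ => above_finite b
  have hf3 : {w : Pl C | es F C (w.under (𝓞 F)) ≠ 1}.Finite :=
    (ram_fin F C).preimage' (f := fun w : Pl C => w.under (𝓞 F)) fun b _ => above_finite b
  refine ⟨{w : Pl C | w.under (𝓞 F) ∈ S1} ∪ ({w : Pl C | w.under (𝓞 F) ∈ S2} ∪
    ({w : Pl C | es F C (w.under (𝓞 F)) ≠ 1} ∪ {w : Pl C | ((p : ℕ) : 𝓞 C) ∈ w.asIdeal})),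
    hf1.union (hf2.union (hf3.union (H28R.W5_fin_mem _ hpC))), ?_⟩
  intro w hw hwN hπψ
  simp only [Set.mem_union, not_or] at hw
  obtain ⟨hw1, hw2, hw3, hw4⟩ := hw
  have hv1 : w.under (𝓞 F) ∉ S1 := hw1
  have hv2 : w.under (𝓞 F) ∉ S2 := hw2
  have he : es F C (w.under (𝓞 F)) = 1 := not_not.1 hw3
  have hwp : ((p : ℕ) : 𝓞 C) ∉ w.asIdeal := hw4
  have hnorm := D5_norm (w.under (𝓞 F)) w rfl
  have hfs : fs F C (w.under (𝓞 F)) = 1 := by
    have hpos := fs_pos (L := C) (w.under (𝓞 F))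
    by_contra hne
    have h2 : 2 ≤ fs F C (w.under (𝓞 F)) := by omega
    have hwN' := hwN
    rw [hnorm] at hwN'
    exact Nat.Prime.not_prime_pow h2 hwN'
  rw [hfs, pow_one] at hnorm
  have hvN : (Ideal.absNorm (w.under (𝓞 F)).asIdeal).Prime := by
    rw [← hnorm]
    exact hwN
  obtain ⟨W, hW⟩ := under_exists (K := C) (L := D) w
  obtain ⟨V, hV⟩ := exists_abw Ω W
  have hVw : Abw V w := hV.below hW
  have hVv : Abw V (w.under (𝓞 F)) := hVw.below rfl
  have hva : ∀ a : 𝓞 F, a ∈ (w.under (𝓞 F)).asIdeal → V.valuation (ak Ω a) < 1 := fun a ha =>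
    (hVv.lt _).2 (((w.under (𝓞 F)).valuation_lt_one_iff_mem a).2 ha)
  have hpv : ((p : ℕ) : 𝓞 F) ∉ (w.under (𝓞 F)).asIdeal := by
    intro hm
    apply hwp
    have h1 : algebraMap (𝓞 F) (𝓞 C) ((p : ℕ) : 𝓞 F) ∈ w.asIdeal := hm
    rwa [map_natCast] at h1
  have hπv : π ∉ (w.under (𝓞 F)).asIdeal := by
    intro hm
    apply hpv
    obtain ⟨c, hc⟩ := hd
    rw [hc]
    exact (w.under (𝓞 F)).asIdeal.mul_mem_right _ hm
  have hπ1 : V.valuation (ak Ω π) = 1 :=
    (hVv.eq_one (π : F)).2 ((HeightOneSpectrum.valuation_eq_one_iff_notMem (w.under (𝓞 F))).2 hπv)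
  have hcast : ∀ n : ℕ, algebraMap F Ω (((n : 𝓞 F) : F)) = (n : Ω) := by
    intro n
    have e : ((n : 𝓞 F) : F) = (n : F) := by push_cast; rfl
    rw [e, map_natCast]
  have hp1 : V.valuation (p : Ω) = 1 := by
    have h1 := (hVv.eq_one (((p : ℕ) : 𝓞 F) : F)).2
      ((HeightOneSpectrum.valuation_eq_one_iff_notMem (w.under (𝓞 F))).2 hpv)
    rwa [hcast p] at h1
  have hGV : GV A B V := hS1 _ hv1 V hva
  have hes : es C D w = 1 := by
    rw [← hW]
    refine unr_of_inert (F := F) (K := C) hV ?_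
    intro s hs hsC
    refine hD.gen s hsC ?_
    intro R hR
    exact cong_fix h.cma hGV hπ1 hR ⟨fun hx => hs _ hx, fun hy => hs _ hy⟩
  refine ⟨hes, ?_⟩
  obtain ⟨s, -, hs⟩ := H13S.exists_frob (w.under (𝓞 F)) V hva
  have hsC : Fxd C s := by
    refine triv_of_es (K := F) hVw he s (fun x => s.commutes x) fun y hy => ?_
    have h1 := hs _ hy
    have h2 : V.valuation (algebraMap C Ω y ^ Ideal.absNorm (w.under (𝓞 F)).asIdeal - algebraMap C Ω y) < 1 := by
      rw [← hnorm, ← map_pow, ← map_sub, hVw.lt]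
      exact H28G.pow_norm w y ((hVw y).1 hy)
    have e : s (algebraMap C Ω y) - algebraMap C Ω y =
        (s (algebraMap C Ω y) - algebraMap C Ω y ^ Ideal.absNorm (w.under (𝓞 F)).asIdeal) +
        (algebraMap C Ω y ^ Ideal.absNorm (w.under (𝓞 F)).asIdeal - algebraMap C Ω y) := by ring
    rw [e]
    exact V.valuation.map_add_lt h1 h2
  have hsD : Fxd D s := by
    refine hD.gen s hsC ?_
    intro T hT
    have hT0 : act π T = 0 := hT
    have hT1 : p • T = 0 := by
      obtain ⟨c, hc⟩ := hd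
      have h1 : act (p : 𝓞 F) T = 0 := by
        rw [hc, mul_comm, map_mul]
        show act c (act π T) = 0
        rw [hT0, map_zero]
      rw [map_natCast, AddMonoid.End.natCast_apply] at h1
      exact h1
    rw [hS2 _ hv2 hvN V hva s hs p hp1 T hT1]
    obtain ⟨c, hc⟩ := hπψ
    have h2 : act (ψ (w.under (𝓞 F)).asIdeal) T = act (c * π + 1) T := by
      congr 2
      linear_combination hc
    rw [h2, map_add, map_mul, map_one]
    show act c (act π T) + T = T
    rw [hT0, map_zero, zero_add]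
  have hWm := W.isMaximal
  let _ : Field (𝓞 D ⧸ W.asIdeal) := Ideal.Quotient.field W.asIdeal
  have hfin : Finite (𝓞 D ⧸ W.asIdeal) := Ideal.finiteQuotientOfFreeOfNeBot W.asIdeal W.ne_bot
  have hq1 : 1 < Ideal.absNorm w.asIdeal := hwN.one_lt
  have hcard := H28R.W5_card (𝓞 D ⧸ W.asIdeal) (Ideal.absNorm w.asIdeal) hq1 (by
    intro y
    obtain ⟨x, rfl⟩ := Ideal.Quotient.mk_surjective y
    rw [← map_pow, eq_comm, Ideal.Quotient.eq]
    have h1 := hs (algebraMap D Ω (x : D)) ((hV _).2 (HeightOneSpectrum.valuation_le_one W x))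
    rw [hsD, ← hnorm, ← map_pow, ← map_sub, hV.lt] at h1
    exact (HeightOneSpectrum.valuation_lt_one_iff_mem (K := D) W _).1 h1)
  have hN2 := D5_norm w W hW
  have hN3 : Nat.card (𝓞 D ⧸ W.asIdeal) = Ideal.absNorm W.asIdeal := by
    rw [Ideal.absNorm_apply, Submodule.cardQuot_apply]
  rw [hN3, hN2] at hcard
  have hpos := fs_pos (L := D) w
  by_contra hne
  have h2 : 1 < fs C D w := by omega
  have h3' : Ideal.absNorm w.asIdeal ^ 1 < Ideal.absNorm w.asIdeal ^ fs C D w :=
    Nat.pow_lt_pow_right hq1 h2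
  rw [pow_one] at h3'
  omega


end H28T
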