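import Mathlib
import Pool.Agent.Lib.H55K.BH1
import Pool.Agent.Lib.H55K.MM

open NumberField IsDedekindDomain WeierstrassCurve

namespace H28T

open H55P (IQ embF eF LF Per IsHecke Pt ac Inert Dec Nm CMData)
open H35P (WAB Ker tt)
open H55K H55K.TQ

variable {F : Type} [Field F] [NumberField F] [IQ F] {W₀ : WeierstrassCurve (𝓞 F)} {Om : ℂ}
    {m : Ideal (𝓞 F)} {ψ : Ideal (𝓞 F) →*₀ 𝓞 F} {p : ℕ}

/-- The complete data over the algebraic closure of F. -/
theorem exists_dta [DecidableEq (AlgebraicClosure F)] (hH : BaseH F W₀ Om m ψ) (hp : PrimeH F W₀ p) :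
    ∃ (A B : F) (j : AlgebraicClosure F →+* ℂ) (act : 𝓞 F →+* AddMonoid.End (Pt (WAB A B) (AlgebraicClosure F))),
      Dta A B Om j act m ψ p := by
  have hB := base_of hH hp
  obtain ⟨j, hj⟩ := exists_j F (AlgebraicClosure F)
  obtain ⟨A, hA⟩ : ∃ A : F, A = -(algebraMap (𝓞 F) F W₀.c₄) / 48 := ⟨_, rfl⟩
  obtain ⟨B, hB'⟩ : ∃ B : F, B = -(algebraMap (𝓞 F) F W₀.c₆) / 864 := ⟨_, rfl⟩
  have hd := y3_ne W₀ hA hB' hB.data.ell
  have hper : Per F (embF F A) (embF F B) Om := by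
    have e1 : embF F A = -(eF F W₀.c₄) / 48 := by
      rw [hA, map_div₀, map_neg, map_ofNat]
      rfl
    have e2 : embF F B = -(eF F W₀.c₆) / 864 := by
      rw [hB', map_div₀, map_neg, map_ofNat]
      rfl
    rw [e1, e2]
    exact hB.data.per
  obtain ⟨act, hact⟩ := exists_CMA F A B Om j hd hper hj
  have hG : ∀ V : ValuationSubring (AlgebraicClosure F),
      ∃ (Kg : AddSubgroup (Pt (WAB A B) (AlgebraicClosure F))) (u : AlgebraicClosure F),
        GMod (WAB A B) V Kg u := fun V => exists_gmod hd (y3_j W₀ hA hB' hB.jint) V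
  exact ⟨A, B, j, act, mk_Dta hB hA hB' hact hG⟩

end H28T
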