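import Mathlib
import Pool.Agent.Lib.H28T.CD
import Pool.Agent.Lib.H55C.Y17

open NumberField IsDedekindDomain

namespace H28T

open H55P H55R

variable {F : Type} [Field F] [NumberField F] {G : HeightOneSpectrum (𝓞 F) → Prop}

/-- Chunk AQ1 (S/M), port of H28R.exists_quotP (H28R/A5.lean) with hD k' N' (k' = k + 1 or k) in place of exists_prime_p; no condition modulo 3. -/
theorem aq1_quot {p : ℕ} (hp : p.Prime) (hD : DirH G p) (A : Type) [CommGroup A] [Finite A]
    (k : ℕ) (hA : Nat.card A = p ^ k) (N : ℕ) :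
    ∃ m : ℕ, 1 < m ∧ (∀ l : ℕ, l.Prime → l ∣ m → N < l ∧ GoodL G l) ∧
      ∃ Φ : (ZMod m)ˣ →* A, Function.Surjective Φ := by
  classical
  have := Fintype.ofFinite A
  choose g hg using fun N' : ℕ => hD k N'
  let s : ℕ → ℕ := fun n => Nat.rec (g N) (fun _ r => g r) n
  have hs0 : s 0 = g N := rfl
  have hs1 : ∀ n, s (n + 1) = g (s n) := fun n => rfl
  have hgN : ∀ N', N' < g N' := fun N' => (hg N').2.1
  have hmono : StrictMono s := strictMono_nat_of_lt_succ (fun n => by rw [hs1]; exact hgN _)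
  have hsN : ∀ n, N < s n := by
    intro n
    have h1 : s 0 ≤ s n := hmono.monotone (Nat.zero_le n)
    have h2 := hgN N
    rw [← hs0] at h2
    omega
  have hsg : ∀ n, ∃ N', s n = g N' := by
    intro n
    cases n with
    | zero => exact ⟨_, hs0⟩
    | succ n => exact ⟨_, hs1 n⟩
  let e := Fintype.equivFin A
  let l : A → ℕ := fun a => s (e a)
  have hl : Function.Injective l := by
    intro a b hab
    exact e.injective (Fin.ext (hmono.injective hab))
  have hprop : ∀ a, (l a).Prime ∧ p ^ k ∣ l a - 1 ∧ N < l a ∧ GoodL G (l a) := by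
    intro a
    obtain ⟨N', hN'⟩ := hsg (e a)
    have h1 := hg N'
    have h2 : l a = g N' := hN'
    refine ⟨?_, ?_, hsN _, ?_⟩
    · rw [h2]; exact h1.1
    · rw [h2]; exact h1.2.2.1
    · rw [h2]; exact h1.2.2.2
  have hcard : ∀ a, Nat.card A ∣ l a - 1 := by
    intro a
    rw [hA]
    exact (hprop a).2.1
  obtain ⟨Φ, hΦ⟩ := H55C.Y17_surj A l hl (fun a => (hprop a).1) hcard
  refine ⟨∏ a, l a, ?_, ?_, Φ, hΦ⟩
  · have h1 : l 1 ∣ ∏ a, l a := Finset.dvd_prod_of_mem l (Finset.mem_univ 1)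
    have h2 : 0 < ∏ a, l a := Finset.prod_pos fun a _ => (hprop a).1.pos
    exact lt_of_lt_of_le (hprop 1).1.one_lt (Nat.le_of_dvd h2 h1)
  · intro q hq hqd
    obtain ⟨a, -, ha⟩ := (Nat.Prime.prime hq).exists_mem_finset_dvd hqd
    have e2 : q = l a := (Nat.prime_dvd_prime_iff_eq hq (hprop a).1).1 ha
    rw [e2]
    exact ⟨(hprop a).2.2.1, (hprop a).2.2.2⟩

end H28T
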