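import Mathlib
import Pool.Agent.Lib.H28T.AQ1
import Pool.Agent.Lib.H28R.A8

open NumberField IsDedekindDomain

namespace H28T

open H55P H55R

variable {F : Type} [Field F] [NumberField F] {G : HeightOneSpectrum (𝓞 F) → Prop}

/-- Chunk AQ2 (S/M), port of H28R.exists_abelianQ (H28R/A8.lean; A8_real, A8_unr are general; A8_aux with GoodL G, B in place of GoodL p). RatG: w contains l, ramification index of w is not 1: then l ∣ m (A8_unr), so GoodL G l and B < l. -/
theorem aq2_abelian {p : ℕ} (hp : p.Prime) (h2 : p ≠ 2) (hD : DirH G p) (A : Type) [CommGroup A] [Finite A]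
    (k : ℕ) (hA : Nat.card A = p ^ k) (B : ℕ) :
    ∃ (K₀ : Type) (_ : Field K₀) (_ : NumberField K₀), IsTotallyReal K₀ ∧ RatG G p K₀ B ∧
      Nonempty ((K₀ ≃ₐ[ℚ] K₀) ≃* A) := by
  obtain ⟨m, hm1, hml, Φ, hΦ⟩ := aq1_quot hp hD A k hA B
  have hm0 : NeZero m := ⟨by omega⟩
  have hcyc : IsCyclotomicExtension {m} ℚ (CyclotomicField m ℚ) :=
    CyclotomicField.isCyclotomicExtension m ℚ
  have hgalN : IsGalois ℚ (CyclotomicField m ℚ) := IsCyclotomicExtension.isGalois {m} ℚ _
  let ψ : Gal((CyclotomicField m ℚ)/ℚ) →* A :=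
    Φ.comp (IsCyclotomicExtension.Rat.galEquivZMod m (CyclotomicField m ℚ)).toMonoidHom
  have hψ : Function.Surjective ψ :=
    hΦ.comp (IsCyclotomicExtension.Rat.galEquivZMod m (CyclotomicField m ℚ)).surjective
  have hnor : ψ.ker.Normal := ψ.normal_ker
  have hgal : IsGalois ℚ (IntermediateField.fixedField ψ.ker) :=
    IsGalois.of_fixedField_normal_subgroup ψ.ker
  have e : Gal((IntermediateField.fixedField ψ.ker)/ℚ) ≃* A :=
    (IsGalois.normalAutEquivQuotient ψ.ker).symm.trans (QuotientGroup.quotientKerEquivOfSurjective ψ hψ)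
  have hdeg : Module.finrank ℚ (IntermediateField.fixedField ψ.ker) = p ^ k := by
    rw [← IsGalois.card_aut_eq_finrank, Nat.card_congr e.toEquiv, hA]
  refine ⟨IntermediateField.fixedField ψ.ker, inferInstance, inferInstance, ?_, ⟨hgal, ⟨k, hdeg⟩, ?_⟩,
    ⟨e⟩⟩
  · refine H28R.A8_real _ ?_
    rw [hdeg]
    exact (hp.odd_of_ne_two h2).pow
  · intro w l hl hlw hr
    have hd : l ∣ m := by
      by_contra hnd
      exact hr (H28R.A8_unr m (CyclotomicField m ℚ) _ w l hl hlw hnd)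
    exact ⟨(hml l hl hd).2, (hml l hl hd).1⟩

end H28T
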