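import Mathlib
import Pool.Agent.Lib.H28R.Defs

/-! # H28T: general facts -/

open NumberField IsDedekindDomain

namespace H28T

open H28R
open H55P H55R

variable {F : Type} [Field F] [NumberField F]

theorem ge_unr_base (w : HeightOneSpectrum (𝓞 F)) : w.asIdeal.ramificationIdx (𝓞 F) = 1 := by
  have hp := w.isPrime
  exact Ideal.ramificationIdx_eq_one w.asIdeal (𝓞 F)

theorem ge_card (L : Type) [Field L] [NumberField L] [Algebra F L] (hG : IsGalois F L)
    (w : HeightOneSpectrum (𝓞 L)) :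
    Nat.card (w.asIdeal.inertia (L ≃ₐ[F] L)) = w.asIdeal.ramificationIdx (𝓞 F) := by
  have hwm := w.isMaximal
  have hwp := w.isPrime
  have hl : w.asIdeal.LiesOver (w.asIdeal.under (𝓞 F)) := ⟨rfl⟩
  have hum : (w.asIdeal.under (𝓞 F)).IsMaximal := Ideal.IsMaximal.under _ _
  have hub : w.asIdeal.under (𝓞 F) ≠ ⊥ := Ideal.IsIntegral.comap_ne_bot _ w.ne_bot
  have hfin : Finite (𝓞 F ⧸ w.asIdeal.under (𝓞 F)) :=
    Ideal.finiteQuotientOfFreeOfNeBot _ hub
  rw [Ideal.card_inertia_eq_ramificationIdxIn (G := L ≃ₐ[F] L)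
      (w.asIdeal.under (𝓞 F)) w.asIdeal,
      Ideal.ramificationIdxIn_eq_ramificationIdx (w.asIdeal.under (𝓞 F)) w.asIdeal (L ≃ₐ[F] L)]

section

variable {K : Type} [Field K] [NumberField K] [Algebra F K]

omit [NumberField F] [NumberField K] [Algebra F K] in
theorem ge_prim {M : ℕ} (hM : 0 < M) {s : K} (hs : s ^ M = 1) :
    0 < orderOf s ∧ IsPrimitiveRoot s (orderOf s) :=
  ⟨(isOfFinOrder_iff_pow_eq_one.2 ⟨M, hM, hs⟩).orderOf_pos, IsPrimitiveRoot.orderOf s⟩

omit [NumberField F] [NumberField K] in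
/-- a conjugate of a root of unity is a power of it -/
theorem ge_pow {M : ℕ} (hM : 0 < M) {s : K} (hs : s ^ M = 1) (g : K ≃ₐ[F] K) :
    ∃ i : ℕ, g s = s ^ i := by
  obtain ⟨hd, hprim⟩ := ge_prim hM hs
  have : NeZero (orderOf s) := ⟨hd.ne'⟩
  obtain ⟨i, -, hi⟩ := hprim.eq_pow_of_pow_eq_one (ξ := g s) (by
    rw [← map_pow, pow_orderOf_eq_one, map_one])
  exact ⟨i, hi.symm⟩

omit [NumberField F] [NumberField K] in
open Polynomial in
theorem ge_splits {M : ℕ} (hM : 0 < M) {s : K} (hs : s ^ M = 1) :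
    ((minpoly F s).map (algebraMap F K)).Splits := by
  obtain ⟨hd, hprim⟩ := ge_prim hM hs
  have h1 : minpoly F s ∣ X ^ (orderOf s) - 1 := by
    refine minpoly.dvd F s ?_
    rw [map_sub, map_pow, aeval_X, map_one, pow_orderOf_eq_one, sub_self]
  have h2 : (X ^ (orderOf s) - 1 : F[X]).map (algebraMap F K) = X ^ (orderOf s) - 1 := by
    rw [Polynomial.map_sub, Polynomial.map_pow, map_X, Polynomial.map_one]
  have h3 : (minpoly F s).map (algebraMap F K) ∣ X ^ (orderOf s) - 1 := by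
    rw [← h2]
    exact Polynomial.map_dvd _ h1
  exact (X_pow_sub_one_splits hprim).of_dvd (X_pow_sub_C_ne_zero hd 1) h3

theorem ge_galois (M : ℕ) (hM : 0 < M) (S : Set K) (hS : ∀ s ∈ S, s ^ M = 1)
    (hgen : Algebra.adjoin F S = ⊤) : IsGalois F K ∧ ∀ g h : K ≃ₐ[F] K, g * h = h * g := by
  have : IsScalarTower ℚ F K := IsScalarTower.of_algebraMap_eq' (Subsingleton.elim _ _)
  have : FiniteDimensional F K := Module.Finite.of_restrictScalars_finite ℚ F K
  constructor
  · have hint : ∀ x : K, IsIntegral F x := fun x => Algebra.IsIntegral.isIntegral x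
    have htop : ∀ x : K, x ∈ IntermediateField.adjoin F S := by
      intro x
      have h1 : x ∈ Algebra.adjoin F S := hgen ▸ Algebra.mem_top
      exact IntermediateField.algebra_adjoin_le_adjoin F S h1
    have hsp : ∀ s ∈ S, ((minpoly F s).map (algebraMap F K)).Splits := fun s hs => ge_splits hM (hS s hs)
    have hn : Normal F K := normal_iff.mpr fun x =>
      ⟨hint x, IntermediateField.splits_of_mem_adjoin F K (L := K) (S := S)
        (fun s hs => ⟨hint s, hsp s hs⟩) (htop x)⟩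
    exact ⟨⟩
  · intro g h
    have h1 : ((g * h : K ≃ₐ[F] K) : K →ₐ[F] K) = ((h * g : K ≃ₐ[F] K) : K →ₐ[F] K) := by
      refine AlgHom.ext_of_adjoin_eq_top hgen fun s hs => ?_
      show g (h s) = h (g s)
      obtain ⟨i, hi⟩ := ge_pow hM (hS s hs) g
      obtain ⟨j, hj⟩ := ge_pow hM (hS s hs) h
      rw [hi, hj, map_pow, map_pow, hi, hj, ← pow_mul, ← pow_mul, mul_comm]
    ext x
    exact congrArg (fun f : K →ₐ[F] K => f x) h1

end

end H28T
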