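import Mathlib
import Pool.Agent.Lib.H28T.A2
import Pool.Agent.Lib.H28T.CD
import Pool.Agent.Lib.H55R.BF2

open NumberField IsDedekindDomain

namespace H28T

open H28R
open H55P H55R

variable {F : Type} [Field F] [NumberField F] {G : HeightOneSpectrum (𝓞 F) → Prop}

/-! Chunk A3 (S/M): subfields of the fields generated by roots of unity. exp_ram: let W be a prime of N above w (under_exists); the ramification index over (𝓞 F) of W is the product of that of w and that of W over 𝓞 K (Ideal.ramificationIdx_tower; all ideals nonzero), so by mu_unr (W contains m iff w contains m) the index of w is 1.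
exp_ext: N/F is Galois with commutative group (mu_gal), so K/F is Galois (IsAbelianGalois.tower_bot, see H13E.sub_mod in H13E/X4.lean). If w is a prime of K over v and v is not good, then m is not in w: v contains a prime number l; if m is in w then m is in v, so a prime divisor l' of m is in v (v prime), GoodL p l' gives G v: contradiction. -/

theorem exp_ram {K N : Type} [Field K] [NumberField K] [Field N] [NumberField N] [Algebra F K]
    [Algebra F N] [Algebra K N] [IsScalarTower F K N] {m : ℕ} (hm : m ≠ 0) {S : Set N}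
    (hS : ∀ s ∈ S, s ^ m = 1) (hgen : Algebra.adjoin F S = ⊤) (w : HeightOneSpectrum (𝓞 K))
    (hw : (m : 𝓞 K) ∉ w.asIdeal) : w.asIdeal.ramificationIdx (𝓞 F) = 1 := by
  obtain ⟨W, hW⟩ := under_exists (K := K) (L := N) w
  have hW' : W.asIdeal.under (𝓞 K) = w.asIdeal := congrArg HeightOneSpectrum.asIdeal hW
  have hwp := w.isPrime
  have hWp := W.isPrime
  have hl : W.asIdeal.LiesOver w.asIdeal := ⟨hW'.symm⟩
  have hmW : (m : 𝓞 N) ∉ W.asIdeal := by
    intro h
    apply hw
    rw [← hW', Ideal.mem_under, map_natCast]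
    exact h
  have h1 := mu_unr hm hS hgen W hmW
  rw [Ideal.ramificationIdx_tower (R := (𝓞 F)) (S := 𝓞 K) w.asIdeal W.asIdeal] at h1
  exact Nat.eq_one_of_mul_eq_one_right h1

/-- A prime ideal which contains the natural number m contains a prime factor of m. -/
theorem mem_factor {K : Type} [Field K] [NumberField K] (w : HeightOneSpectrum (𝓞 K)) {m : ℕ}
    (hm : m ≠ 0) (hw : (m : 𝓞 K) ∈ w.asIdeal) :
    ∃ l : ℕ, l.Prime ∧ l ∣ m ∧ (l : 𝓞 K) ∈ w.asIdeal ∧ l ≤ Ideal.absNorm w.asIdeal := by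
  have hwp := w.isPrime
  have hone : (1 : 𝓞 K) ∉ w.asIdeal := fun h => hwp.ne_top ((Ideal.eq_top_iff_one _).2 h)
  have key : ∀ n : ℕ, n ≠ 0 → (n : 𝓞 K) ∈ w.asIdeal →
      ∃ l : ℕ, l.Prime ∧ l ∣ n ∧ (l : 𝓞 K) ∈ w.asIdeal := by
    intro n
    induction n using Nat.strong_induction_on with
    | _ n ih =>
      intro hn hnw
      have h1 : n ≠ 1 := by
        rintro rfl
        rw [Nat.cast_one] at hnw
        exact hone hnw
      obtain ⟨k, hk⟩ := Nat.minFac_dvd n
      have hp := Nat.minFac_prime h1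
      have hnw' : ((n.minFac * k : ℕ) : 𝓞 K) ∈ w.asIdeal := by rw [← hk]; exact hnw
      rw [Nat.cast_mul] at hnw'
      rcases hwp.mem_or_mem hnw' with h2 | h2
      · exact ⟨n.minFac, hp, Nat.minFac_dvd n, h2⟩
      · have hk0 : k ≠ 0 := by
          rintro rfl
          rw [mul_zero] at hk
          exact hn hk
        have hkn : k < n := by
          have h3 := hp.two_le
          have h4 : 0 < k := Nat.pos_of_ne_zero hk0
          have h5 : 2 * k ≤ n.minFac * k := Nat.mul_le_mul_right k h3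
          omega
        obtain ⟨l, hl1, hl2, hl3⟩ := ih k hkn hk0 h2
        exact ⟨l, hl1, hl2.trans (Dvd.intro_left _ hk.symm), hl3⟩
  obtain ⟨l, hl1, hl2, hl3⟩ := key m hm hw
  refine ⟨l, hl1, hl2, hl3, ?_⟩
  have hN0 : Ideal.absNorm w.asIdeal ≠ 0 := by
    rw [Ne, Ideal.absNorm_eq_zero_iff]
    exact w.ne_bot
  refine Nat.le_of_dvd (Nat.pos_of_ne_zero hN0) ?_
  by_contra hnd
  have hcop : Nat.Coprime l (Ideal.absNorm w.asIdeal) := (Nat.Prime.coprime_iff_not_dvd hl1).2 hnd
  have h1 : IsCoprime (l : ℤ) (Ideal.absNorm w.asIdeal : ℤ) := Nat.isCoprime_iff_coprime.2 hcop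
  obtain ⟨a, b, hab⟩ := h1
  apply hone
  have h2 := congrArg (Int.cast : ℤ → 𝓞 K) hab
  push_cast at h2
  rw [← h2]
  exact w.asIdeal.add_mem (w.asIdeal.mul_mem_left _ hl3)
    (w.asIdeal.mul_mem_left _ (Ideal.absNorm_mem w.asIdeal))

theorem exp_ext {p : ℕ} {K : Type} [Field K] [NumberField K] [Algebra F K] (h : ExplicitG G K)
    (hk : ∃ k : ℕ, Module.finrank F K = p ^ k) : ExtG G p K := by
  obtain ⟨N, _, _, _, _, _, m, S, hm, hgood, hS, hgen⟩ := h
  obtain ⟨hG, hc⟩ := mu_gal hm hS hgen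
  have hN : IsAbelianGalois F N := { toIsGalois := hG, is_comm := ⟨hc⟩ }
  have hK : IsAbelianGalois F K := IsAbelianGalois.tower_bot F K N
  refine ⟨inferInstance, hk, ?_⟩
  intro W v hv hng
  apply exp_ram (N := N) hm hS hgen
  intro hmW
  apply hng
  have h1 : (m : (𝓞 F)) ∈ v.asIdeal := by
    rw [hv, Ideal.mem_under, map_natCast]
    exact hmW
  obtain ⟨l, hl1, hl2, hl3, -⟩ := mem_factor v hm h1
  exact hgood l hl1 hl2 v hl3

end H28T
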