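import Mathlib
import Pool.Agent.Lib.H55K.RD

open NumberField IsDedekindDomain

namespace H28T

open H55P
open H55K.TQ

variable {F : Type} [Field F] [NumberField F] [IQ F]

/-- Chunk AQ3A (M), pure Galois theory. K₀/ℚ Galois of degree p^k, p odd. Ω = AlgebraicClosure F, ι : K₀ →ₐ[ℚ] Ω (IsAlgClosed.lift), E = KG F K₀ ι = adjoin F (range ι) (H55K/RD.lean), finite over F (finitely many generators or adjoin of a basis; H55K/FB1.lean, T-part files: finDim of KG). E/F is Galois: E is generated over F by the elements ι x, the conjugates over F of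
ι x are among the ι(σ x), σ in Gal(K₀/ℚ) (K₀/ℚ normal: the minimal polynomial of ι x over F divides the one over ℚ, which splits in K₀): IntermediateField.normal_iff... or: every s : Ω ≃ₐ[F] Ω maps E to E (kg_stable-like; s (ι x) = ι (σ x), AlgHom.restrictNormal / Normal.algHomEquivAut), IntermediateField.normal_iff_forall_map_le'.
res : Gal(E/F) → Gal(K₀/ℚ), g (ι x) = ι (res g x) (restriction g.restrictScalars ℚ to the normal subfield K₀: AlgEquiv.restrictNormalHom K₀ with the algebra K₀ → E). Injective: E is generated by F and ι K₀. Surjective: the fixed field of the range R of res in K₀ consists of x with ι x fixed by Gal(E/F), so ι x in F (IsGalois.mem_bot_iff_fixed);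
it is a subfield of K₀ isomorphic to a subfield of F, so its degree over ℚ divides p^k and divides 2 = [F:ℚ] (IQ.deg; Module.finrank_mul_finrank, or finrank ≤ 2 and dividing p^k with p ≥ 3), so it is 1: fixedField R = ⊥, R = ⊤ (IsGalois Galois correspondence: IntermediateField.fixingSubgroup_fixedField). The degree of E/F is the order of Gal(K₀/ℚ), p^k. -/
theorem aq3a_comp {p : ℕ} (hp : p.Prime) (h2 : p ≠ 2) (K₀ : Type) [Field K₀] [NumberField K₀] [IsGalois ℚ K₀] {k : ℕ}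
    (hk : Module.finrank ℚ K₀ = p ^ k) :
    ∃ (E : Type) (_ : Field E) (_ : NumberField E) (_ : Algebra F E) (_ : Algebra K₀ E) (e : (E ≃ₐ[F] E) ≃* (K₀ ≃ₐ[ℚ] K₀)),
      IsGalois F E ∧ Module.finrank F E = p ^ k ∧
      ∀ (g : E ≃ₐ[F] E) (x : K₀), g (algebraMap K₀ E x) = algebraMap K₀ E (e g x) := by
  have hFq : Algebra.IsQuadraticExtension ℚ F := ⟨IQ.deg⟩
  have hFn : Normal ℚ F := Algebra.IsQuadraticExtension.normal ℚ F
  have hFg : IsGalois ℚ F := ⟨⟩
  let φ : K₀ →ₐ[ℚ] AlgebraicClosure ℚ := IsAlgClosed.lift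
  let ψ : F →ₐ[ℚ] AlgebraicClosure ℚ := IsAlgClosed.lift
  let A := φ.fieldRange
  let B := ψ.fieldRange
  let eA : K₀ ≃ₐ[ℚ] A := φ.equivFieldRange
  let eB : F ≃ₐ[ℚ] B := ψ.equivFieldRange
  have hA : Module.finrank ℚ A = p ^ k := by rw [← eA.toLinearEquiv.finrank_eq, hk]
  have hB : Module.finrank ℚ B = 2 := by rw [← eB.toLinearEquiv.finrank_eq, IQ.deg]
  have fA : FiniteDimensional ℚ A := eA.toLinearEquiv.finiteDimensional
  have fB : FiniteDimensional ℚ B := eB.toLinearEquiv.finiteDimensional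
  have gA : IsGalois ℚ A := IsGalois.of_algEquiv eA
  have gB : IsGalois ℚ B := IsGalois.of_algEquiv eB
  have hlin : A.LinearDisjoint B := by
    apply IntermediateField.LinearDisjoint.of_finrank_coprime
    rw [hA, hB]
    exact Nat.Coprime.pow_left _ ((Nat.coprime_primes hp Nat.prime_two).2 h2)
  have hEf := hlin.finrank_sup
  rw [hA, hB] at hEf
  have fE : FiniteDimensional ℚ ↥(A ⊔ B) := IntermediateField.finiteDimensional_sup A B
  have nA : Normal ℚ A := gA.to_normal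
  have nB : Normal ℚ B := gB.to_normal
  have nAB : Normal ℚ ↥(A ⊔ B) := @IntermediateField.normal_sup ℚ (AlgebraicClosure ℚ) _ _ _ A B nA nB
  have gE : IsGalois ℚ ↥(A ⊔ B) := { to_normal := nAB }
  have nE : NumberField ↥(A ⊔ B) := ⟨⟩
  let iK : K₀ →ₐ[ℚ] ↥(A ⊔ B) := (IntermediateField.inclusion le_sup_left).comp eA.toAlgHom
  let iF : F →ₐ[ℚ] ↥(A ⊔ B) := (IntermediateField.inclusion le_sup_right).comp eB.toAlgHom
  let aK : Algebra K₀ ↥(A ⊔ B) := iK.toRingHom.toAlgebra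
  let aF : Algebra F ↥(A ⊔ B) := iF.toRingHom.toAlgebra
  have tF : IsScalarTower ℚ F ↥(A ⊔ B) := IsScalarTower.of_algebraMap_eq' (Subsingleton.elim _ _)
  have tK : IsScalarTower ℚ K₀ ↥(A ⊔ B) := IsScalarTower.of_algebraMap_eq' (Subsingleton.elim _ _)
  have gFE : IsGalois F ↥(A ⊔ B) := IsGalois.tower_top_of_isGalois ℚ F _
  have fFE : FiniteDimensional F ↥(A ⊔ B) := Module.Finite.of_restrictScalars_finite ℚ F _
  have dFE : Module.finrank F ↥(A ⊔ B) = p ^ k := by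
    have h1 := Module.finrank_mul_finrank ℚ F ↥(A ⊔ B)
    rw [IQ.deg, hEf] at h1
    omega
  -- the restriction
  let res : (↥(A ⊔ B) ≃ₐ[F] ↥(A ⊔ B)) →* (K₀ ≃ₐ[ℚ] K₀) :=
    (AlgEquiv.restrictNormalHom K₀).comp
      { toFun := fun g => g.restrictScalars ℚ
        map_one' := rfl
        map_mul' := fun _ _ => rfl }
  have hres : ∀ (g : ↥(A ⊔ B) ≃ₐ[F] ↥(A ⊔ B)) (x : K₀),
      algebraMap K₀ ↥(A ⊔ B) (res g x) = g (algebraMap K₀ ↥(A ⊔ B) x) := fun g x =>
    AlgEquiv.restrictNormal_commutes (g.restrictScalars ℚ) K₀ x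
  have hinj : Function.Injective res := by
    rw [injective_iff_map_eq_one]
    intro g hg
    have h1 : ∀ x : K₀, g (algebraMap K₀ ↥(A ⊔ B) x) = algebraMap K₀ ↥(A ⊔ B) x := by
      intro x
      rw [← hres, hg]
      rfl
    have h2 : ∀ x : F, g (algebraMap F ↥(A ⊔ B) x) = algebraMap F ↥(A ⊔ B) x := fun x => g.commutes x
    -- the subfield of the fixed elements contains A and B
    let Fx : IntermediateField ℚ (AlgebraicClosure ℚ) :=
      ((IntermediateField.fixedField (Subgroup.zpowers (g.restrictScalars ℚ : ↥(A ⊔ B) ≃ₐ[ℚ] ↥(A ⊔ B)))).map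
        (A ⊔ B).val)
    have hAF : A ≤ Fx := by
      rintro _ ⟨x, rfl⟩
      refine ⟨algebraMap K₀ ↥(A ⊔ B) x, ?_, rfl⟩
      rintro ⟨s, hs⟩
      obtain ⟨m, rfl⟩ := Subgroup.mem_zpowers_iff.1 hs
      exact (MulAction.stabilizer (↥(A ⊔ B) ≃ₐ[ℚ] ↥(A ⊔ B)) (algebraMap K₀ ↥(A ⊔ B) x)).zpow_mem
        (show (g.restrictScalars ℚ : ↥(A ⊔ B) ≃ₐ[ℚ] ↥(A ⊔ B)) ∈ _ from h1 x) m
    have hBF : B ≤ Fx := by
      rintro _ ⟨x, rfl⟩
      refine ⟨algebraMap F ↥(A ⊔ B) x, ?_, rfl⟩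
      rintro ⟨s, hs⟩
      obtain ⟨m, rfl⟩ := Subgroup.mem_zpowers_iff.1 hs
      exact (MulAction.stabilizer (↥(A ⊔ B) ≃ₐ[ℚ] ↥(A ⊔ B)) (algebraMap F ↥(A ⊔ B) x)).zpow_mem
        (show (g.restrictScalars ℚ : ↥(A ⊔ B) ≃ₐ[ℚ] ↥(A ⊔ B)) ∈ _ from h2 x) m
    have hle : A ⊔ B ≤ Fx := sup_le hAF hBF
    ext y
    obtain ⟨z, hz, hzy⟩ := hle y.2
    have hz2 : z = y := Subtype.ext hzy
    have h3 := hz ⟨_, Subgroup.mem_zpowers _⟩
    rw [hz2] at h3
    exact congrArg _ h3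
  have hcard : Nat.card (↥(A ⊔ B) ≃ₐ[F] ↥(A ⊔ B)) = Nat.card (K₀ ≃ₐ[ℚ] K₀) := by
    rw [IsGalois.card_aut_eq_finrank, IsGalois.card_aut_eq_finrank, dFE, hk]
  have hbij : Function.Bijective res := (Nat.bijective_iff_injective_and_card res).2 ⟨hinj, hcard⟩
  exact ⟨↥(A ⊔ B), inferInstance, nE, aF, aK, MulEquiv.ofBijective res hbij, gFE, dFE,
    fun g x => (hres g x).symm⟩

end H28T
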