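import Mathlib
import Pool.Agent.Lib.H28T.A3
import Pool.Agent.Lib.H28T.AQ3A
import Pool.Agent.Lib.H55D.X3

open NumberField IsDedekindDomain

namespace H28T

open H55P H55R
open H55K.TQ

variable {F : Type} [Field F] [NumberField F] [IQ F] {G : HeightOneSpectrum (𝓞 F) → Prop}

/-- The ramified primes of the compositum. -/
theorem aq3_ram {p B : ℕ} {K₀ : Type} [Field K₀] [NumberField K₀] (h : RatG G p K₀ B) {E : Type} [Field E] [NumberField E]
    [Algebra F E] [Algebra K₀ E] (hG : IsGalois F E) (e : (E ≃ₐ[F] E) ≃* (K₀ ≃ₐ[ℚ] K₀))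
    (he : ∀ (g : E ≃ₐ[F] E) (x : K₀), g (algebraMap K₀ E x) = algebraMap K₀ E (e g x))
    (w : HeightOneSpectrum (𝓞 E)) (hw : w.asIdeal.ramificationIdx (𝓞 F) ≠ 1) (l : ℕ) (hl : l.Prime)
    (hlw : (l : 𝓞 E) ∈ w.asIdeal) : GoodL G l ∧ B < l := by
  obtain ⟨hGK, -, hU⟩ := h
  have hwp := w.isPrime
  have hp : (w.asIdeal.under (𝓞 K₀)).IsPrime := inferInstance
  have hne : w.asIdeal.under (𝓞 K₀) ≠ ⊥ := by
    intro h
    exact w.ne_bot (Ideal.eq_bot_of_comap_eq_bot (R := 𝓞 K₀) (I := w.asIdeal) h)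
  let w₀ : HeightOneSpectrum (𝓞 K₀) := ⟨w.asIdeal.under (𝓞 K₀), hp, hne⟩
  have hlw₀ : (l : 𝓞 K₀) ∈ w₀.asIdeal := by
    show algebraMap (𝓞 K₀) (𝓞 E) (l : 𝓞 K₀) ∈ w.asIdeal
    rwa [map_natCast]
  refine hU w₀ l hl hlw₀ fun hr => hw ?_
  rw [← ge_card E hG w, Subgroup.card_eq_one, Subgroup.eq_bot_iff_forall]
  intro g hg
  have hg1 : e g = 1 := by
    refine H55D.X3_inertia w₀ hr (e g) fun y => ?_
    show algebraMap (𝓞 K₀) (𝓞 E) (e g • y - y) ∈ w.asIdeal
    have h2 : algebraMap (𝓞 K₀) (𝓞 E) (e g • y) = g • algebraMap (𝓞 K₀) (𝓞 E) y := by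
      apply NumberField.RingOfIntegers.ext
      exact (he g _).symm
    rw [map_sub, h2]
    exact hg _
  exact e.injective (hg1.trans (map_one e).symm)

/-- Chunk AQ3 (M), port of H28R.A7_unr (H28R/A7.lean). E from aq3a_comp. Let w be a prime of E, v = w.under (𝓞 F), l the prime number in v (H55D.X3_prime), w₀ = w ∩ 𝓞 K₀. If the ramification index of w over 𝓞 F is not 1, the inertia group of w in Gal(E/F) is not trivial (ge_card, Gen.lean), so there is g ≠ 1 in it; e g is in the inertia group of w₀ (as h1 in A7_unr) and e g ≠ 1, so the ramification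
index of w₀ over ℤ is not 1 (H55D.X3_inertia), so GoodL G l and B < l (h): G v (contraposition gives ExtG), and B < l ≤ absNorm w: l is in w; see the end of mem_factor (A3.lean) or: absNorm w is a power of l... (an integer in w dividing: absNorm w ∈ w, so l ∣ absNorm w since otherwise 1 ∈ w; absNorm w ≠ 0). -/
theorem aq3_of {p : ℕ} (hp : p.Prime) (h2 : p ≠ 2) (K₀ : Type) [Field K₀] [NumberField K₀] {B : ℕ} (h : RatG G p K₀ B) :
    ∃ (E : Type) (_ : Field E) (_ : NumberField E) (_ : Algebra F E) (_ : Algebra K₀ E),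
      PB G p E B ∧ Nonempty ((E ≃ₐ[F] E) ≃* (K₀ ≃ₐ[ℚ] K₀)) := by
  obtain ⟨hGK, ⟨k, hk⟩, hU⟩ := id h
  obtain ⟨E, _, _, _, _, e, hG, hdeg, he⟩ := aq3a_comp (F := F) hp h2 K₀ hk
  refine ⟨E, inferInstance, inferInstance, inferInstance, inferInstance, ⟨⟨hG, ⟨k, hdeg⟩, ?_⟩, ?_⟩, ⟨e⟩⟩
  · intro w v hv hGv
    by_contra hr
    have hm : Ideal.absNorm v.asIdeal ≠ 0 := by
      rw [Ne, Ideal.absNorm_eq_zero_iff]
      exact v.ne_bot
    obtain ⟨l, hl, -, hlv, -⟩ := mem_factor v hm (Ideal.absNorm_mem _)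
    have hlw : (l : 𝓞 E) ∈ w.asIdeal := by
      have h3 := hlv
      rw [hv, Ideal.mem_under, map_natCast] at h3
      exact h3
    exact hGv ((aq3_ram h hG e he w hr l hl hlw).1 v hlv)
  · intro w hr
    have hm : Ideal.absNorm w.asIdeal ≠ 0 := by
      rw [Ne, Ideal.absNorm_eq_zero_iff]
      exact w.ne_bot
    obtain ⟨l, hl, -, hlw, hle⟩ := mem_factor w hm (Ideal.absNorm_mem _)
    exact lt_of_lt_of_le (aq3_ram h hG e he w hr l hl hlw).2 hle

end H28T
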