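import Mathlib
import Pool.Agent.Lib.H28T.CD
import Pool.Agent.Lib.H55K.D1

open NumberField IsDedekindDomain WeierstrassCurve

namespace H28T

open H55P
open H55K

variable {F : Type} [Field F] [NumberField F] [IQ F]

variable {W : WeierstrassCurve ℤ} {p : ℕ}

theorem ar2_card {R S : Type} [CommRing R] [CommRing S] (e : R ≃+* S) (V : WeierstrassCurve R) :
    Nat.card V.toAffine.Point = Nat.card (V.map (e : R →+* S)).toAffine.Point := by
  have hinj : Function.Injective (e : R →+* S) := e.injective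
  let f : V.toAffine.Point → (V.map (e : R →+* S)).toAffine.Point := fun P =>
    match P with
    | .zero => .zero
    | .some x y h => .some ((e : R →+* S) x) ((e : R →+* S) y)
        ((Affine.map_nonsingular (W := V) hinj x y).2 h)
  refine Nat.card_congr (Equiv.ofBijective f ⟨?_, ?_⟩)
  · rintro (_ | ⟨x, y, h⟩) (_ | ⟨x', y', h'⟩) hh
    · rfl
    · simp [f] at hh
    · simp [f] at hh
    · simp only [f, Affine.Point.some.injEq] at hh
      obtain ⟨h1, h2⟩ := hh
      have h1' := hinj h1
      have h2' := hinj h2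
      subst h1' h2'
      rfl
  · rintro (_ | ⟨x, y, h⟩)
    · exact ⟨.zero, rfl⟩
    · have h1 : (e : R →+* S) (e.symm x) = x := e.apply_symm_apply x
      have h2 : (e : R →+* S) (e.symm y) = y := e.apply_symm_apply y
      have h3 : V.toAffine.Nonsingular (e.symm x) (e.symm y) := by
        rw [← Affine.map_nonsingular (W := V) hinj, h1, h2]
        exact h
      refine ⟨.some _ _ h3, ?_⟩
      simp only [f, Affine.Point.some.injEq]
      exact ⟨h1, h2⟩

/-- Chunk AR2 (S/M). The primes in Gd are stable under conjugation, W over the integers. Δ of the curve over 𝓞 F is the image of the integer W.Δ (WeierstrassCurve.map_Δ), p is an integer: cj fixes them, so Δ, p are not in v'. The numbers of points: cj induces a ring isomorphism θ : 𝓞 F ⧸ v ≃ 𝓞 F ⧸ v' (Ideal.quotientEquiv with the hypothesis h: v' is the image of v under cj; cj_cj);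
the curve over the quotient is the image of W under ℤ → 𝓞 F → 𝓞 F ⧸ v (WeierstrassCurve.map_map) and θ composed with this map is ℤ → 𝓞 F ⧸ v' (all ring homomorphisms from ℤ agree: Subsingleton / RingHom.ext_int), so θ maps the reduction to the reduction and gives a bijection of the affine points (equations and
nonsingularity are preserved by a ring isomorphism: WeierstrassCurve.Affine.Point.map with 𝓞 F ⧸ v' as an algebra over 𝓞 F ⧸ v, injective: Point.map_injective; and the inverse; or the two inequalities from injections in both directions: Nat.card_le_card_of_injective, finite types). Fields: Ideal.Quotient.field is needed for Affine.Point: look at how Nat.card (W₀⁄(𝓞 F ⧸ v.asIdeal)).toAffine.Point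
is handled in H55K/PC.lean (pts_odd, pts_even), H55K/DM.lean or H28R/A9.lean; Affine.Point only needs a commutative ring for the type, so a bijection of the types can be built by cases (0 to 0, some h to some h'). -/
theorem ar2_conj (v v' : HeightOneSpectrum (𝓞 F)) (h : ∀ x : 𝓞 F, cj x ∈ v'.asIdeal ↔ x ∈ v.asIdeal)
    (hg : Gd (W⁄(𝓞 F)) p v) : Gd (W⁄(𝓞 F)) p v' := by
  obtain ⟨h1, h2, h3⟩ := hg
  have hi : ∀ m : ℤ, (m : 𝓞 F) ∈ v'.asIdeal ↔ (m : 𝓞 F) ∈ v.asIdeal := by
    intro m
    have h4 := h (m : 𝓞 F)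
    rwa [cj_int] at h4
  have hΔ : (W⁄(𝓞 F)).Δ = ((W.Δ : ℤ) : 𝓞 F) := by
    have h5 := WeierstrassCurve.map_Δ W (algebraMap ℤ (𝓞 F))
    rw [eq_intCast] at h5
    exact h5
  refine ⟨?_, ?_, ?_⟩
  · rw [hΔ, hi, ← hΔ]
    exact h1
  · have h4 := hi (p : ℤ)
    rw [Int.cast_natCast] at h4
    rw [h4]
    exact h2
  · have hI : v'.asIdeal = v.asIdeal.map ((cj : 𝓞 F ≃+* 𝓞 F) : 𝓞 F →+* 𝓞 F) := by
      ext y
      rw [Ideal.mem_map_iff_of_surjective ((cj : 𝓞 F ≃+* 𝓞 F) : 𝓞 F →+* 𝓞 F)
        (cj : 𝓞 F ≃+* 𝓞 F).surjective]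
      constructor
      · intro hy
        refine ⟨cj y, ?_, cj_cj y⟩
        rw [← h, cj_cj]
        exact hy
      · rintro ⟨x, hx, rfl⟩
        exact (h x).2 hx
    have e1 := ar2_card (Ideal.quotientEquiv v.asIdeal v'.asIdeal cj hI)
      ((W⁄(𝓞 F))⁄(𝓞 F ⧸ v.asIdeal))
    have e2 : ((W⁄(𝓞 F))⁄(𝓞 F ⧸ v.asIdeal)).map
        ((Ideal.quotientEquiv v.asIdeal v'.asIdeal cj hI : 𝓞 F ⧸ v.asIdeal ≃+* 𝓞 F ⧸ v'.asIdeal) :
          𝓞 F ⧸ v.asIdeal →+* 𝓞 F ⧸ v'.asIdeal) = (W⁄(𝓞 F))⁄(𝓞 F ⧸ v'.asIdeal) := by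
      simp only [WeierstrassCurve.baseChange, WeierstrassCurve.map_map]
      congr 1
      exact Subsingleton.elim _ _
    rw [e2] at e1
    rw [← e1]
    exact h3

end H28T
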