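import Mathlib
import Pool.Agent.Lib.H55K.D1
import Pool.Agent.Lib.H13N.G1

open NumberField IsDedekindDomain

namespace H28T

open H55P
open H55K

variable {F : Type} [Field F] [NumberField F] [IQ F]

/-- Chunk AR1 (S/M). Two embeddings of F in a number field N agree on the integers up to the conjugation cj. Take an embedding i : N →+* ℂ; i ∘ f and i ∘ g are among embF F and its conjugate (H55K.d1_emb, d1_conj_ne in H55K/D1.lean: all embeddings different from embF F agree, and the conjugate of embF F is one of them); e_cj. -/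
theorem ar1_two (N : Type) [Field N] [NumberField N] (f g : F →+* N) :
    (∀ x : F, g x = f x) ∨ ∀ x : 𝓞 F, g (x : F) = f ((cj x : 𝓞 F) : F) := by
  obtain ⟨i⟩ : Nonempty (N →+* ℂ) := inferInstance
  have key : ∀ φ : F →+* ℂ, φ = embF F ∨ φ = (starRingEnd ℂ).comp (embF F) := by
    intro φ
    by_cases h : φ = embF F
    · exact Or.inl h
    · exact Or.inr (d1_emb F φ _ h (d1_conj_ne F))
  have hcj : ∀ x : 𝓞 F, embF F ((cj x : 𝓞 F) : F) = (starRingEnd ℂ) (embF F (x : F)) := fun x => e_cj x
  rcases key (i.comp f) with h1 | h1 <;> rcases key (i.comp g) with h2 | h2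
  · left
    intro x
    apply i.injective
    exact RingHom.congr_fun (h2.trans h1.symm) x
  · right
    intro x
    apply i.injective
    have e1 : i (g (x : F)) = (starRingEnd ℂ) (embF F (x : F)) := RingHom.congr_fun h2 (x : F)
    have e2 : i (f ((cj x : 𝓞 F) : F)) = embF F ((cj x : 𝓞 F) : F) := RingHom.congr_fun h1 _
    rw [e1, e2, hcj]
  · right
    intro x
    apply i.injective
    have e1 : i (g (x : F)) = embF F (x : F) := RingHom.congr_fun h2 (x : F)
    have e2 : i (f ((cj x : 𝓞 F) : F)) = (starRingEnd ℂ) (embF F ((cj x : 𝓞 F) : F)) :=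
      RingHom.congr_fun h1 _
    rw [e1, e2, hcj, Complex.conj_conj]
  · left
    intro x
    apply i.injective
    exact RingHom.congr_fun (h2.trans h1.symm) x

theorem ar1_fix (N : Type) [Field N] [NumberField N] [Algebra F N] (a : N ≃ₐ[F] N) (j : F →+* N)
    (x : F) : a (j x) = j x := by
  rcases ar1_two N (algebraMap F N) j with h | h
  · rw [h]
    exact a.commutes _
  · obtain ⟨b, c, -, rfl⟩ := IsFractionRing.div_surjective (A := 𝓞 F) x
    have hb : a (j (algebraMap (𝓞 F) F b)) = j (algebraMap (𝓞 F) F b) := by
      have := h b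
      rw [show j (algebraMap (𝓞 F) F b) = algebraMap F N ((cj b : 𝓞 F) : F) from this]
      exact a.commutes _
    have hc : a (j (algebraMap (𝓞 F) F c)) = j (algebraMap (𝓞 F) F c) := by
      have := h c
      rw [show j (algebraMap (𝓞 F) F c) = algebraMap F N ((cj c : 𝓞 F) : F) from this]
      exact a.commutes _
    rw [map_div₀, map_div₀, hb, hc]

/-- Chunk AR1 (S/M), port of H13N.g1_restrict (H13N/G1.lean). a fixes the image of F under every embedding j : F →+* N (ar1_two for algebraMap F N and j; a fixes algebraMap F N; every element of F is a quotient of integers: or F is generated by integers: IsFractionRing / x = a / b with a, b in 𝓞 F). The rest is H13N.g1_aux. -/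
theorem ar1_restrict (L N : Type) [Field L] [NumberField L] [Algebra F L] [Field N] [NumberField N]
    [Algebra F N] (hG : IsGalois F L) (a : N ≃ₐ[F] N) (τ : L →+* N) :
    ∃ α : L ≃ₐ[F] L, ∀ x : L, a (τ x) = τ (α x) := by
  have hfix := fun x => ar1_fix N a (τ.comp (algebraMap F L)) x
  let iL : Algebra L N := τ.toAlgebra
  let iF : Algebra F N := (τ.comp (algebraMap F L)).toAlgebra
  have hT : @IsScalarTower F L N _ iL.toSMul iF.toSMul :=
    @IsScalarTower.of_algebraMap_eq F L N _ _ _ _ iL iF (fun x => rfl)
  have hNm : Normal F L := inferInstance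
  let a' : @AlgEquiv F N N _ _ _ iF iF :=
    @AlgEquiv.ofRingEquiv F N N _ _ _ iF iF (a : N ≃+* N) hfix
  exact @H13N.g1_aux F L N _ _ _ _ iF iL hT hNm a'

end H28T
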