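import Mathlib
import Pool.Agent.Lib.H13N.G3
import Pool.Agent.Lib.H28T.AR1
import Pool.Agent.Lib.H28T.Defs
import Pool.Agent.Lib.H28T.Gen

open NumberField IsDedekindDomain

namespace H28T

open H28R (SubQ)
open H55P H55R
open H55K

variable {F : Type} [Field F] [NumberField F] [IQ F] {G : HeightOneSpectrum (𝓞 F) → Prop}

theorem ar3_pow {p : ℕ} (hp : p.Prime) (L N : Type) [Field L] [NumberField L] [Algebra F L] [Field N]
    [NumberField N] [Algebra F N] (hG : IsGalois F L) (k : ℕ) (hk : Module.finrank F L = p ^ k)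
    (hN : IsGalois ℚ N) (hgen : ∀ g : N ≃ₐ[F] N, (∀ (τ : L →+* N) (x : L), g (τ x) = τ x) → g = 1) :
    ∃ m : ℕ, Module.finrank F N = p ^ m := by
  have hfp : Fact p.Prime := ⟨hp⟩
  have hNF : IsGalois F N := IsGalois.tower_top_of_isGalois ℚ F N
  have hpg : IsPGroup p (N ≃ₐ[F] N) := by
    intro a
    refine ⟨k, hgen _ ?_⟩
    intro τ x
    obtain ⟨α, hα⟩ := ar1_restrict L N hG a τ
    have h1 : ∀ (n : ℕ) (x : L), (a ^ n) (τ x) = τ ((α ^ n) x) := by
      intro n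
      induction n with
      | zero => intro x; simp
      | succ n ih =>
        intro x
        rw [pow_succ, pow_succ]
        show (a ^ n) (a (τ x)) = τ ((α ^ n) (α x))
        rw [hα, ih]
    have h2 : α ^ p ^ k = 1 := by
      rw [← hk, ← IsGalois.card_aut_eq_finrank F L]
      exact pow_card_eq_one'
    rw [h1, h2]
    rfl
  obtain ⟨m, hm⟩ := (IsPGroup.iff_card (p := p)).1 hpg
  exact ⟨m, by rw [← IsGalois.card_aut_eq_finrank F N, hm]⟩

theorem ar3_unr
    (hcj : ∀ v v' : HeightOneSpectrum (𝓞 F), (∀ x : 𝓞 F, cj x ∈ v'.asIdeal ↔ x ∈ v.asIdeal) → G v → G v')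
    (L N : Type) [Field L] [NumberField L] [Algebra F L] [Field N] [NumberField N]
    [Algebra F N] (hG : IsGalois F L)
    (hU : ∀ (w : HeightOneSpectrum (𝓞 L)) (v : HeightOneSpectrum (𝓞 F)), v.asIdeal = w.asIdeal.under (𝓞 F) →
      ¬ G v → w.asIdeal.ramificationIdx (𝓞 F) = 1) (hN : IsGalois ℚ N)
    (hgen : ∀ g : N ≃ₐ[F] N, (∀ (τ : L →+* N) (x : L), g (τ x) = τ x) → g = 1)
    (P : HeightOneSpectrum (𝓞 N)) (v : HeightOneSpectrum (𝓞 F)) (hv : v.asIdeal = P.asIdeal.under (𝓞 F))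
    (hng : ¬ G v) : P.asIdeal.ramificationIdx (𝓞 F) = 1 := by
  have hNF : IsGalois F N := IsGalois.tower_top_of_isGalois ℚ F N
  rw [← ge_card N hNF P, Subgroup.card_eq_one, eq_bot_iff]
  intro g hg
  rw [Subgroup.mem_bot]
  apply hgen
  intro τ x
  obtain ⟨α, hα⟩ := ar1_restrict L N hG g τ
  suffices h1 : α = 1 by
    rw [hα, h1]
    rfl
  let t : 𝓞 L →+* 𝓞 N := RingOfIntegers.mapRingHom τ
  have ht : ∀ y : 𝓞 L, algebraMap (𝓞 N) N (t y) = τ (algebraMap (𝓞 L) L y) := fun y => rfl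
  have hPp := P.isPrime
  have hne : P.asIdeal.comap t ≠ ⊥ := by
    intro h
    have hn : (Ideal.absNorm P.asIdeal : 𝓞 L) ∈ P.asIdeal.comap t := by
      rw [Ideal.mem_comap, map_natCast]
      exact Ideal.absNorm_mem _
    rw [h, Ideal.mem_bot, Nat.cast_eq_zero, Ideal.absNorm_eq_zero_iff] at hn
    exact P.ne_bot hn
  let P' : HeightOneSpectrum (𝓞 L) := ⟨P.asIdeal.comap t, inferInstance, hne⟩
  have hP' : ∀ y, y ∈ P'.asIdeal ↔ t y ∈ P.asIdeal := fun y => Iff.rfl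
  have hv'ne : P'.asIdeal.under (𝓞 F) ≠ ⊥ := Ideal.IsIntegral.comap_ne_bot _ P'.ne_bot
  have hP'p := P'.isPrime
  let v' : HeightOneSpectrum (𝓞 F) := ⟨P'.asIdeal.under (𝓞 F), inferInstance, hv'ne⟩
  have hv'm : ∀ y : 𝓞 F, y ∈ v'.asIdeal ↔ t (algebraMap (𝓞 F) (𝓞 L) y) ∈ P.asIdeal := fun y => Iff.rfl
  have hvm : ∀ y : 𝓞 F, y ∈ v.asIdeal ↔ algebraMap (𝓞 F) (𝓞 N) y ∈ P.asIdeal := by
    intro y
    rw [hv, Ideal.under_def, Ideal.mem_comap]
  have hng' : ¬ G v' := by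
    rcases ar1_two N (algebraMap F N) (τ.comp (algebraMap F L)) with h2 | h2
    · have h4 : ∀ y : 𝓞 F, t (algebraMap (𝓞 F) (𝓞 L) y) = algebraMap (𝓞 F) (𝓞 N) y := by
        intro y
        apply RingOfIntegers.ext
        exact h2 (y : F)
      have h5 : v' = v := by
        apply HeightOneSpectrum.ext
        ext y
        rw [hv'm, hvm, h4]
      rw [h5]
      exact hng
    · have h4 : ∀ y : 𝓞 F, t (algebraMap (𝓞 F) (𝓞 L) y) = algebraMap (𝓞 F) (𝓞 N) (cj y) := by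
        intro y
        apply RingOfIntegers.ext
        exact h2 y
      intro hgd
      refine hng (hcj v' v (fun x => ?_) hgd)
      rw [hv'm, hvm, h4]
  have h6 : P'.asIdeal.ramificationIdx (𝓞 F) = 1 := hU P' v' rfl hng'
  rw [← ge_card L hG P', Subgroup.card_eq_one] at h6
  have h7 : α ∈ P'.asIdeal.inertia (L ≃ₐ[F] L) := by
    intro y
    show t (α • y - y) ∈ P.asIdeal
    have h8 : t (α • y - y) = g • t y - t y := by
      rw [map_sub]
      congr 1
      apply RingOfIntegers.ext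
      exact (hα (y : L)).symm
    rw [h8]
    exact hg (t y)
  rw [h6, Subgroup.mem_bot] at h7
  exact h7

/-- Chunk AR3 (M), port of H28R.W17_unr, W17_pow, exists_galP (H28R/W17.lean): the Galois closure over the rationals is in the class. hcj is the stability under conjugation. ar1_restrict replaces H13N.g1_restrict, ar1_two replaces g1_two (t ∘ algebraMap (𝓞 F) (𝓞 L) is algebraMap (𝓞 F) (𝓞 N) or its composition with cj), ge_card (Gen.lean) replaces g2_card,
H13N.g3_closure is general. -/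
theorem ar3_gal {p : ℕ} (hp : p.Prime)
    (hcj : ∀ v v' : HeightOneSpectrum (𝓞 F), (∀ x : 𝓞 F, cj x ∈ v'.asIdeal ↔ x ∈ v.asIdeal) → G v → G v')
    (L : Type) [Field L] [NumberField L] [Algebra F L] (h : ExtG G p L) :
    ∃ (N : Type) (_ : Field N) (_ : NumberField N) (_ : Algebra F N) (_ : Algebra L N)
      (_ : IsScalarTower F L N), IsGalois ℚ N ∧ ExtG G p N := by
  obtain ⟨hG, ⟨k, hk⟩, hU⟩ := h
  obtain ⟨N, i1, i2, i3, hN, hg⟩ := H13N.g3_closure L
  let i4 : Algebra F N := ((algebraMap L N).comp (algebraMap F L)).toAlgebra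
  have i5 : IsScalarTower F L N := IsScalarTower.of_algebraMap_eq fun x => rfl
  have hgen : ∀ g : N ≃ₐ[F] N, (∀ (τ : L →+* N) (x : L), g (τ x) = τ x) → g = 1 := by
    intro g h
    have h1 := hg (g.restrictScalars ℚ) h
    ext x
    exact congrArg (fun σ : N ≃ₐ[ℚ] N => σ x) h1
  obtain ⟨m, hm⟩ := ar3_pow hp L N hG k hk hN hgen
  exact ⟨N, i1, i2, i4, i3, i5, hN, IsGalois.tower_top_of_isGalois ℚ F N, ⟨m, hm⟩,
    ar3_unr hcj L N hG hU hN hgen⟩

end H28T
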