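import Mathlib
import Pool.Agent.Lib.H28R.Defs
import Pool.Agent.Lib.H55K.D1

open NumberField IsDedekindDomain

namespace H28T

open H28R (SubQ)
open H55P H55R
open H55K

variable {F : Type} [Field F] [NumberField F] [IQ F] {G : HeightOneSpectrum (𝓞 F) → Prop}

theorem ar4_pos (K₀ : Type) [Field K₀] [NumberField K₀] (j : K₀ →+* ℂ)
    (hj : ComplexEmbedding.IsReal j) : 0 < InfinitePlace.nrRealPlaces K₀ := by
  classical
  rw [← InfinitePlace.card_real_embeddings, Fintype.card_pos_iff]
  exact ⟨⟨j, hj⟩⟩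

theorem ar4_nonreal (N : Type) [Field N] [NumberField N] [Algebra F N] (i : N →+* ℂ) :
    (starRingEnd ℂ).comp i ≠ i := by
  intro h
  obtain ⟨x, hx⟩ := IQ.im (F := F)
  apply hx
  have h1 : (starRingEnd ℂ) (i (algebraMap F N x)) = i (algebraMap F N x) :=
    RingHom.congr_fun h _
  have h2 : (i (algebraMap F N x)).im = 0 := Complex.conj_eq_iff_im.1 h1
  by_cases h3 : i.comp (algebraMap F N) = embF F
  · have h4 : i (algebraMap F N x) = embF F x := RingHom.congr_fun h3 x
    rw [h4] at h2
    exact h2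
  · have h4 : i (algebraMap F N x) = (starRingEnd ℂ) (embF F x) :=
      RingHom.congr_fun (d1_emb F _ _ h3 (d1_conj_ne F)) x
    rw [h4, Complex.conj_im, neg_eq_zero] at h2
    exact h2

/-- Chunk AR4 (S/M), port of H13N.x3_real (H13N/X3.lean). The complex conjugation γ of a Galois field N over ℚ containing F (under an embedding i of N in ℂ) is not the identity: its restriction to F is not (F has no real embedding: i ∘ algebraMap F N is embF F or its conjugate, IQ.im; H55K.d1_emb). The rest as in x3_real (without noroot). -/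
theorem ar4_real (N : Type) [Field N] [NumberField N] [Algebra F N] (hG : IsGalois ℚ N) :
    ∃ (K₀ : Type) (_ : Field K₀) (_ : NumberField K₀) (_ : Algebra K₀ N),
      0 < InfinitePlace.nrRealPlaces K₀ ∧ Module.finrank K₀ N = 2 := by
  obtain ⟨i⟩ : Nonempty (N →+* ℂ) := inferInstance
  have h1 : i.comp (algebraMap ℚ N) = ((starRingEnd ℂ).comp i).comp (algebraMap ℚ N) :=
    Subsingleton.elim _ _
  obtain ⟨σ, hσ⟩ := ComplexEmbedding.exists_comp_symm_eq_of_comp_eq i _ h1
  let γ : N ≃ₐ[ℚ] N := σ.symm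
  have hγ : ∀ z, i (γ z) = (starRingEnd ℂ) (i z) := fun z =>
    congrArg (fun φ : N →+* ℂ => φ z) hσ
  have hγ1 : γ ≠ 1 := by
    intro h
    apply ar4_nonreal (F := F) N i
    ext z
    show (starRingEnd ℂ) (i z) = i z
    rw [← hγ, h]
    rfl
  have hγ2 : γ * γ = 1 := by
    ext z
    apply i.injective
    change i (γ (γ z)) = i z
    rw [hγ, hγ, Complex.conj_conj]
  let K₀ : IntermediateField ℚ N := IntermediateField.fixedField (Subgroup.zpowers γ)
  have hfix : ∀ x : K₀, γ (x : N) = x := by
    intro x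
    exact x.2 ⟨γ, Subgroup.mem_zpowers γ⟩
  have hreal : ∀ x : K₀, (starRingEnd ℂ) (i (x : N)) = i (x : N) := by
    intro x
    rw [← hγ, hfix]
  have hrank : Module.finrank K₀ N = 2 := by
    have h2 : Module.finrank K₀ N = Nat.card (Subgroup.zpowers γ) :=
      IntermediateField.finrank_fixedField_eq_card _
    rw [h2, Nat.card_zpowers]
    exact orderOf_eq_prime (by rw [pow_two, hγ2]) hγ1
  refine ⟨K₀, inferInstance, inferInstance, inferInstance, ?_, hrank⟩
  let j : K₀ →+* ℂ := i.comp (algebraMap K₀ N)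
  have hj : ComplexEmbedding.IsReal j := by
    rw [ComplexEmbedding.isReal_iff]
    ext x
    exact hreal x
  exact ar4_pos K₀ j hj

end H28T
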