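import Mathlib
import Pool.Agent.Lib.H28T.Defs
import Pool.Agent.Lib.H28T.WSt

open NumberField IsDedekindDomain

namespace H28T

open H28R
open H55P H55R

variable {F : Type} [Field F] [NumberField F] {G : HeightOneSpectrum (𝓞 F) → Prop}

/-! Chunk W21 (M). The conjugates of γ under FixZ F ζ are independent modulo p-th powers. Let a h <> 0, P = h w (smulP): ord P (g γ) = ord (g⁻¹ h w) γ is divisible by p unless g⁻¹ h w = δ w for some δ in the group of C/K (δ w' lies over another prime), i.e. δ⁻¹ g⁻¹ h = 1 (trivial stabiliser) and then h = g δ,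
δ fixes ζ, δ = 1, g = h. So the order of the product at P is a h times ord w γ modulo p. (Trivial stabiliser: H55R card_stab with Nice.deg and Nice.unr, see the header of W7; ord_smul for the action on primes. A shared helper file is fine.) -/

theorem not_pow {p : ℕ} (hp : p.Prime) {K C : Type} [Field K] [NumberField K]
    [Field C] [NumberField C] [Algebra F K] [Algebra F C] [Algebra K C] [IsScalarTower F K C]
    {ζ : C} (h : Cyc F p K C ζ) {B : ℕ} {γ : Cˣ} {w w' : Pl C} (hγ : Gam G p K C ζ B γ w w')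
    [Fintype (FixZ F ζ)] (a : FixZ F ζ → ZMod p) (ha : a ≠ 0) :
    ¬ ∃ z : C, z ^ p = ∏ g : FixZ F ζ, ((g : C ≃ₐ[F] C) (γ : C)) ^ (a g).val := by
  classical
  have hGal := h.gal
  have hpf : Fact p.Prime := ⟨hp⟩
  rintro ⟨z, hz⟩
  obtain ⟨h0, hh0⟩ := Function.ne_iff.1 ha
  -- the units
  set G : FixZ F ζ → Cˣ := fun g => Units.map (((g : C ≃ₐ[F] C) : C ≃ₐ[F] C) : C →* C) γ with hG
  have hGv : ∀ g, ((G g : Cˣ) : C) = (g : C ≃ₐ[F] C) (γ : C) := fun g => rfl
  have hprod : z ^ p = ((∏ g : FixZ F ζ, G g ^ (a g).val : Cˣ) : C) := by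
    rw [hz, Units.coe_prod]
    refine Finset.prod_congr rfl fun g _ => ?_
    rw [Units.val_pow_eq_pow_val, hGv]
  have hz0 : z ≠ 0 := by
    intro h1
    rw [h1, zero_pow hp.ne_zero] at hprod
    exact (Units.ne_zero _) hprod.symm
  have hzu : (Units.mk0 z hz0) ^ p = ∏ g : FixZ F ζ, G g ^ (a g).val := by
    apply Units.ext
    rw [Units.val_pow_eq_pow_val, Units.val_mk0]
    exact hprod
  -- the prime
  set P : Pl C := smulP (h0 : C ≃ₐ[F] C) w with hP
  have e1 : ord P ((Units.mk0 z hz0) ^ p) = (p : ℤ) * ord P (Units.mk0 z hz0) := by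
    have h := ord_zpow P (Units.mk0 z hz0) (p : ℤ)
    rw [zpow_natCast] at h
    exact h
  have e2 : (p : ℤ) ∣ ∑ g : FixZ F ζ, ((a g).val : ℤ) * ord P (G g) := by
    rw [← wst_prod P Finset.univ G fun g => (a g).val, ← hzu, e1]
    exact dvd_mul_right _ _
  have e3 : ∀ g : FixZ F ζ, ord P (G g) =
      ord (smulP ((g : C ≃ₐ[F] C)⁻¹ * (h0 : C ≃ₐ[F] C)) w) γ := by
    intro g
    rw [smulP_mul, ← hP, ← ord_smul (g : C ≃ₐ[F] C) (smulP ((g : C ≃ₐ[F] C)⁻¹) P) γ,
      ← smulP_mul, mul_inv_cancel, smulP_one]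
  have e4 : ∀ g : FixZ F ζ, g ≠ h0 → (p : ℤ) ∣ ord P (G g) := by
    intro g hg
    rw [e3]
    apply hγ.oth
    intro δ
    constructor
    · intro hδ
      rw [← wst_res (F := F) δ w] at hδ
      have h1 := wst_eq w hγ.nice.deg hγ.nice.unr _ _ hδ
      have h2 : (g : C ≃ₐ[F] C)⁻¹ * (h0 : C ≃ₐ[F] C) ∈ FixZ F ζ :=
        (FixZ F ζ).mul_mem ((FixZ F ζ).inv_mem g.2) h0.2
      rw [h1] at h2
      have h3 : δ ζ = ζ := h2
      have h4 := h.gen δ h3
      rw [h4] at h1
      have h5 : (g : C ≃ₐ[F] C)⁻¹ * (h0 : C ≃ₐ[F] C) = 1 := by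
        rw [h1]
        rfl
      rw [inv_mul_eq_one] at h5
      exact hg (Subtype.ext h5)
    · intro hδ
      rw [← wst_res (F := F) δ w'] at hδ
      have h1 := congrArg (fun W : Pl C => W.under (𝓞 F)) hδ
      simp only [under_smulP] at h1
      exact hγ.ne (congrArg HeightOneSpectrum.asIdeal h1)
  have e5 : (p : ℤ) ∣ ((a h0).val : ℤ) * ord P (G h0) := by
    rw [← Finset.add_sum_erase _ _ (Finset.mem_univ h0)] at e2
    refine (dvd_add_left (Finset.dvd_sum fun g hg => ?_)).1 e2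
    exact dvd_mul_of_dvd_right (e4 g (Finset.ne_of_mem_erase hg)) _
  have e6 : ord P (G h0) = ord w γ := by
    rw [e3, inv_mul_cancel, smulP_one]
  rw [e6] at e5
  rcases Int.Prime.dvd_mul' hp e5 with h1 | h1
  · rw [Int.natCast_dvd_natCast] at h1
    have h2 : (a h0).val < p := ZMod.val_lt _
    have h3 : (a h0).val = 0 := Nat.eq_zero_of_dvd_of_lt h1 h2
    exact hh0 ((ZMod.val_eq_zero _).1 h3)
  · exact hγ.at1 h1

end H28T
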