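import Mathlib
import Pool.Agent.Lib.H28T.Defs
import Pool.Agent.Lib.H55N.WR1
import Pool.Agent.Lib.H55R.BF1

open NumberField IsDedekindDomain

namespace H28T

open H28R
open H55P H55R H55N

variable {F : Type} [Field F] [NumberField F] {G : HeightOneSpectrum (𝓞 F) → Prop}

/-! Chunk W6 (M), pigeonhole: the proof of H19T.W1 (exists_beta3), with p^2 in place of 9 and the prime p in place of 3. Infinitely many nice primes w over pairwise different primes v of F (hinf applied to the finite sets of the primes above finitely many v). J prime to p from the finitely many ideal classes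
(H55N.exists_rep for the ideal span {p}), w J = (x_w), x_w prime to p; pigeonhole for the class of w and x_w modulo p^2: w, w' with the same J and x_w = x_w' mod p^2, over different v. y x_w = 1 mod p^2, a = y x_w', a' = y x_w: both are 1 mod p^2 and (a) w = (a') w', so
ord_P a = ord_P a' + [P = w'] - [P = w]. α = a'^(p-1) a  has order p ord a' + [P = w'] - [P = w]; so take α with the roles of w and w' exchanged (at1: order 1 modulo p at w). Orders: H55R.ord, BF1_val, HB1_val; H55N.WR1_val, WR1_cnt. -/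

theorem W6_ord {C : Type} [Field C] [NumberField C] (P : Pl C) (x : 𝓞 C) (y : Cˣ)
    (h : (y : C) = x) : ord P y = (WR1_cnt P (Ideal.span {x}) : ℤ) := by
  have hx : x ≠ 0 := by
    rintro rfl
    apply y.ne_zero
    rw [h]
    rfl
  have h1 := BF1_val P y
  rw [h, WR1_val P hx] at h1
  have h2 := WithZero.exp_injective h1
  linarith

theorem exists_alp {p : ℕ} (hp : p.Prime) (C : Type) [Field C] [NumberField C] [Algebra F C] (B : ℕ)
    (hGp : ∀ v : HeightOneSpectrum (𝓞 F), G v → (p : 𝓞 F) ∉ v.asIdeal) (hinf : ∀ S : Set (Pl C), S.Finite → ∃ w : Pl C, w ∉ S ∧ Nice G p C B w) :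
    ∃ (α : Cˣ) (w w' : Pl C), Alp G p C B α w w' := by
  classical
  set V : Set (HeightOneSpectrum (𝓞 F)) := {v | ∃ w : Pl C,
    v.asIdeal = w.asIdeal.under (𝓞 F) ∧ Nice G p C B w} with hV
  have hVinf : V.Infinite := by
    intro hfin
    have hS : {w : Pl C | HeightOneSpectrum.under (𝓞 F) w ∈ V}.Finite := by
      have h1 : {w : Pl C | HeightOneSpectrum.under (𝓞 F) w ∈ V} =
          ⋃ v ∈ V, {w : Pl C | HeightOneSpectrum.under (𝓞 F) w = v} := by
        ext w
        simp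
      rw [h1]
      refine Set.Finite.biUnion hfin fun v _ => ?_
      have h2 : v.asIdeal.map (algebraMap (𝓞 F) (𝓞 C)) ≠ 0 := by
        rw [Ne, Ideal.zero_eq_bot]
        exact Ideal.map_ne_bot_of_ne_bot v.ne_bot
      refine (Ideal.finite_factors h2).subset ?_
      intro w hw
      show w.asIdeal ∣ _
      rw [Ideal.dvd_iff_le, Ideal.map_le_iff_le_comap]
      have h3 : HeightOneSpectrum.under (𝓞 F) w = v := hw
      rw [← h3]
      exact le_rfl
    obtain ⟨w, hw1, hw2⟩ := hinf _ hS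
    apply hw1
    exact ⟨w, rfl, hw2⟩
  have : Infinite V := hVinf.to_subtype
  choose W hW1 hW2 using fun v : V => v.2
  have hp0 : (p : 𝓞 C) ≠ 0 := Nat.cast_ne_zero.2 hp.ne_zero
  have h30 : (Ideal.span {(p : 𝓞 C)}) ≠ ⊥ := by
    rw [Ne, Ideal.span_singleton_eq_bot]
    exact hp0
  choose b hb hcop hcl using exists_rep (K := C) (Ideal.span {(p : 𝓞 C)}) h30
  let κ : V → ClassGroup (𝓞 C) := fun v =>
    (ClassGroup.mk0 ⟨(W v).asIdeal, mem_nonZeroDivisors_iff_ne_zero.2 (W v).ne_bot⟩)⁻¹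
  have hprin : ∀ v : V, ∃ x : 𝓞 C, (W v).asIdeal * b (κ v) = Ideal.span {x} := by
    intro v
    have h1 : ClassGroup.mk0 (⟨(W v).asIdeal, mem_nonZeroDivisors_iff_ne_zero.2 (W v).ne_bot⟩ *
        ⟨b (κ v), mem_nonZeroDivisors_iff_ne_zero.2 (hb (κ v))⟩) = 1 := by
      rw [map_mul, hcl]
      exact mul_inv_cancel _
    have h2 := (ClassGroup.mk0_eq_one_iff _).1 h1
    obtain ⟨x, hx⟩ := h2.principal
    exact ⟨x, hx⟩
  choose x hx using hprin
  have hxcop : ∀ v : V, IsCoprime (x v) ((p : 𝓞 C) ^ 2) := by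
    intro v
    have h1 : IsCoprime (W v).asIdeal (Ideal.span {(p : 𝓞 C)}) := by
      have hm := (W v).isMaximal
      have h2 : (p : 𝓞 C) ∉ (W v).asIdeal := by
        intro h
        apply hGp _ ((hW2 v).good _ (hW1 v))
        rw [hW1 v]
        show algebraMap (𝓞 F) (𝓞 C) p ∈ (W v).asIdeal
        rw [map_natCast]
        exact h
      obtain ⟨y, i, hi, hyi⟩ := hm.exists_inv h2
      rw [Ideal.isCoprime_iff_exists]
      exact ⟨i, hi, y * p, Ideal.mul_mem_left _ y (Ideal.mem_span_singleton_self (p : 𝓞 C)), by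
        rw [add_comm]; exact hyi⟩
    have h2 := IsCoprime.mul_left h1 (hcop (κ v))
    rw [hx, Ideal.isCoprime_span_singleton_iff] at h2
    exact h2.pow_right (n := 2)
  have hp20 : ((p : 𝓞 C) ^ 2) ≠ 0 := pow_ne_zero 2 hp0
  have h40 : Ideal.span {((p : 𝓞 C) ^ 2)} ≠ ⊥ := by
    rw [Ne, Ideal.span_singleton_eq_bot]
    exact hp20
  have : Finite (𝓞 C ⧸ Ideal.span {((p : 𝓞 C) ^ 2)}) := Ideal.finiteQuotientOfFreeOfNeBot _ h40
  have : Finite (ClassGroup (𝓞 C)) := inferInstance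
  obtain ⟨v1, v2, hne, heq⟩ := Finite.exists_ne_map_eq_of_infinite
    (fun v : V => (κ v, Ideal.Quotient.mk (Ideal.span {((p : 𝓞 C) ^ 2)}) (x v)))
  obtain ⟨hκ, hmk⟩ := Prod.ext_iff.1 heq
  simp only at hκ hmk
  rw [Ideal.Quotient.eq, Ideal.mem_span_singleton] at hmk
  obtain ⟨t, ht⟩ := hmk
  obtain ⟨y, z, hyz⟩ := hxcop v1
  have hy0 : y ≠ 0 := by
    rintro rfl
    rw [zero_mul, zero_add] at hyz
    have h1 : IsUnit ((p : 𝓞 C) ^ 2) := IsUnit.of_mul_eq_one z (by rw [mul_comm]; exact hyz)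
    have h3 := (isUnit_pow_iff two_ne_zero).1 h1
    have h6 := (isUnit_iff_norm (x := (p : 𝓞 C))).1 h3
    have h7 : Algebra.norm ℚ ((p : 𝓞 C) : C) = p ^ Module.finrank ℚ C := by
      have h8 : ((p : 𝓞 C) : C) = algebraMap ℚ C p := by
        rw [map_natCast]
        rfl
      rw [h8, Algebra.norm_algebraMap]
    rw [RingOfIntegers.coe_norm, h7] at h6
    have h9 : Module.finrank ℚ C ≠ 0 := (Module.finrank_pos (R := ℚ) (M := C)).ne'
    have h11 : (1 : ℚ) < p := by exact_mod_cast hp.one_lt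
    have h10 : (1 : ℚ) < (p : ℚ) ^ Module.finrank ℚ C := one_lt_pow₀ h11 h9
    rw [abs_of_pos (by positivity)] at h6
    linarith
  have hx0 : ∀ v, x v ≠ 0 := by
    intro v h
    have h1 := hx v
    rw [h] at h1
    have h2 : (W v).asIdeal * b (κ v) = ⊥ := by rw [h1]; simp
    rcases Ideal.mul_eq_bot.1 h2 with h3 | h3
    · exact (W v).ne_bot h3
    · exact hb _ h3
  have hcx : ∀ (P : Pl C) (v : V), WR1_cnt P (Ideal.span {x v}) =
      WR1_cnt P (W v).asIdeal + WR1_cnt P (b (κ v)) := by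
    intro P v
    rw [← hx, WR1_cnt_mul P (W v).ne_bot (hb _)]
  have hs : ∀ {a : 𝓞 C}, a ≠ 0 → Ideal.span {a} ≠ ⊥ := fun ha => by
    rw [Ne, Ideal.span_singleton_eq_bot]
    exact ha
  have e1 : ∀ (P : Pl C) v, WR1_cnt P (Ideal.span {y * x v}) =
      WR1_cnt P (Ideal.span {y}) + (WR1_cnt P (W v).asIdeal + WR1_cnt P (b (κ v))) := by
    intro P v
    rw [← Ideal.span_singleton_mul_span_singleton, WR1_cnt_mul P (hs hy0) (hs (hx0 _)), hcx]
  -- the two elements
  have hu : ∀ v, ((y * x v : 𝓞 C) : C) ≠ 0 := by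
    intro v h
    exact mul_ne_zero hy0 (hx0 v) (RingOfIntegers.ext h)
  let a1 : Cˣ := Units.mk0 _ (hu v1)
  let a2 : Cˣ := Units.mk0 _ (hu v2)
  have ho1 : ∀ P, ord P a1 = (WR1_cnt P (Ideal.span {y * x v1}) : ℤ) := fun P =>
    W6_ord P _ _ rfl
  have ho2 : ∀ P, ord P a2 = (WR1_cnt P (Ideal.span {y * x v2}) : ℤ) := fun P =>
    W6_ord P _ _ rfl
  have hpow : ∀ (P : Pl C) (u : Cˣ) (n : ℕ), ord P (u ^ n) = n * ord P u := by
    intro P u n
    rw [← zpow_natCast, ord_zpow]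
  have hWne : W v1 ≠ W v2 := by
    intro h
    apply hne
    apply Subtype.ext
    apply HeightOneSpectrum.ext
    rw [hW1 v1, hW1 v2, h]
  have hp1 : ((p - 1 : ℕ) : ℤ) = (p : ℤ) - 1 := by
    rw [Nat.cast_sub hp.one_lt.le, Nat.cast_one]
  have hord : ∀ P, ord P (a1 * a2 ^ (p - 1)) =
      (p : ℤ) * ((WR1_cnt P (Ideal.span {y}) : ℤ) + (WR1_cnt P (W v2).asIdeal : ℤ) +
        (WR1_cnt P (b (κ v1)) : ℤ)) +
        ((WR1_cnt P (W v1).asIdeal : ℤ) - (WR1_cnt P (W v2).asIdeal : ℤ)) := by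
    intro P
    rw [ord_mul, hpow, ho1, ho2, e1, e1, ← hκ, hp1]
    push_cast
    ring
  refine ⟨a1 * a2 ^ (p - 1), W v1, W v2, ?_, ?_, ?_, ?_, ?_, hW2 v1, hW2 v2⟩
  · refine ⟨(y * x v1) * (y * x v2) ^ (p - 1), ?_, ?_⟩
    · rw [Units.val_mul, Units.val_pow_eq_pow_val]
      exact (map_mul (algebraMap (𝓞 C) C) _ _).trans
        (congrArg _ (map_pow (algebraMap (𝓞 C) C) _ _))
    · have f1 : (p : 𝓞 C) ^ 2 ∣ y * x v1 - 1 := ⟨-z, by linear_combination hyz⟩
      have f2 : (p : 𝓞 C) ^ 2 ∣ y * x v2 - 1 := ⟨-(z + y * t), by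
        linear_combination hyz - y * ht⟩
      have f3 : (p : 𝓞 C) ^ 2 ∣ (y * x v2) ^ (p - 1) - 1 := by
        refine dvd_trans f2 ?_
        have := sub_dvd_pow_sub_pow (y * x v2) 1 (p - 1)
        rwa [one_pow] at this
      have f4 : (y * x v1) * (y * x v2) ^ (p - 1) - 1 =
          (y * x v1) * ((y * x v2) ^ (p - 1) - 1) + (y * x v1 - 1) := by ring
      rw [f4]
      exact dvd_add (dvd_mul_of_dvd_right f3 _) f1
  · rw [hord, WR1_cnt_self, WR1_cnt_ne _ _ hWne,
      show ∀ A : ℤ, A + (((1 : ℕ) : ℤ) - ((0 : ℕ) : ℤ)) - 1 = A from fun A => by push_cast; ring]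
    exact dvd_mul_right _ _
  · rw [hord, WR1_cnt_self, WR1_cnt_ne _ _ hWne.symm,
      show ∀ A : ℤ, A + (((0 : ℕ) : ℤ) - ((1 : ℕ) : ℤ)) + 1 = A from fun A => by push_cast; ring]
    exact dvd_mul_right _ _
  · intro P h1 h2
    rw [hord, WR1_cnt_ne _ _ h1, WR1_cnt_ne _ _ h2,
      show ∀ A : ℤ, A + (((0 : ℕ) : ℤ) - ((0 : ℕ) : ℤ)) = A from fun A => by push_cast; ring]
    exact dvd_mul_right _ _
  · rw [← hW1, ← hW1]
    intro h
    exact hne (Subtype.ext (HeightOneSpectrum.ext h))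

end H28T
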