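import Mathlib
import Pool.Agent.Lib.H28T.W13
import Pool.Agent.Lib.H28T.W14
import Pool.Agent.Lib.H28T.W21
import Pool.Agent.Lib.H28T.W6
import Pool.Agent.Lib.H28T.W7
import Pool.Agent.Lib.H28T.W8

open NumberField IsDedekindDomain

namespace H28T

open H28R
open H55P H55R

variable {F : Type} [Field F] [NumberField F] {G : HeightOneSpectrum (𝓞 F) → Prop}

/-! W15: the wreath step (assembly). -/

/-- K' contains K, is of the same kind, and its group is the regular wreath product of the cyclic group of order p with the group of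
K/F. -/
def WrOver (G : HeightOneSpectrum (𝓞 F) → Prop) (p : ℕ) (K : Type) [Field K] [NumberField K] [Algebra F K] (B : ℕ) : Prop :=
  ∃ (K' : Type) (_ : Field K') (_ : NumberField K') (_ : Algebra F K') (_ : Algebra K K')
    (_ : IsScalarTower F K K'), PB G p K' B ∧ Nonempty ((K' ≃ₐ[F] K') ≃* CP p ≀ᵣ (K ≃ₐ[F] K))

theorem exists_wreath {p : ℕ} (hp : p.Prime) (h5 : 5 ≤ p) (hGp : ∀ v : HeightOneSpectrum (𝓞 F), G v → (p : 𝓞 F) ∉ v.asIdeal)
    (hN : NiceH G p) (K : Type) [Field K] [NumberField K]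
    [Algebra F K] (B : ℕ) (h : PB G p K B) : WrOver G p K B := by
  classical
  obtain ⟨C, _, _, _, _, _, ζ, hC⟩ := exists_cyc (F := F) p hp h5 K h.1.1 h.1.2.1
  obtain ⟨α, w, w', hα⟩ := exists_alp hp C B hGp (fun S hS => hN K C ζ h.1 hC B S hS)
  obtain ⟨γ, hγ⟩ := exists_gam hp hC hα
  obtain ⟨N, _, _, _, _, _, _, _, _, r, hr, hcen⟩ := exists_N hp hC γ hγ.eig
  have : Finite (FixZ F ζ) := inferInstance
  let _ : Fintype (FixZ F ζ) := Fintype.ofFinite _
  have hGN : IsGalois F N := hr.gal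
  obtain ⟨D, hD, hDK, ⟨e⟩⟩ := group_D hp h5 hC γ.ne_zero hr (fun a ha => not_pow hp hC hγ a ha) hcen
  obtain ⟨K', _, _, _, _, _, _, _, _, hG', ⟨e'⟩⟩ := exists_fix F K N D hD hDK
  have hcard : ∃ n : ℕ, Module.finrank F K' = p ^ n := by
    obtain ⟨k, hk⟩ := h.1.2.1
    have := h.1.1
    rw [← IsGalois.card_aut_eq_finrank, Nat.card_congr (e'.trans e).toEquiv,
      RegularWreathProduct.card, IsGalois.card_aut_eq_finrank, hk]
    refine ⟨p ^ k + k, ?_⟩
    have h1 : Nat.card (CP p) = p := by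
      rw [Nat.card_eq_of_bijective Multiplicative.toAdd Multiplicative.toAdd.bijective, Nat.card_zmod]
    rw [h1, pow_add]
  exact ⟨K', inferInstance, inferInstance, inferInstance, inferInstance, inferInstance,
    ram_PB hp h5 hC h hγ hr hG' hcard, ⟨e'.trans e⟩⟩

end H28T
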