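import Mathlib
import Pool.Agent.Lib.H28T.AR3
import Pool.Agent.Lib.H28T.AR4
import Pool.Agent.Lib.H28T.CD
import Pool.Agent.Lib.H28T.W16

open NumberField IsDedekindDomain

namespace H28T

open H28R (SubQ)
open H55P H55R
open H55K

variable {F : Type} [Field F] [NumberField F] [IQ F] {G : HeightOneSpectrum (𝓞 F) → Prop}

theorem ar5_real {p : ℕ} (hp : p.Prime) (h5 : 5 ≤ p)
    (hcj : ∀ v v' : HeightOneSpectrum (𝓞 F), (∀ x : 𝓞 F, cj x ∈ v'.asIdeal ↔ x ∈ v.asIdeal) → G v → G v')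
    (hGp : ∀ v : HeightOneSpectrum (𝓞 F), G v → (p : 𝓞 F) ∉ v.asIdeal)
    (hN : NiceH G p) (H : Type) [Group H] [Finite H] (k : ℕ)
    (hH : Nat.card H = p ^ k) : RealFieldG G p H := by
  obtain ⟨L, i1, i2, i3, hL, ⟨ψ, hψ⟩⟩ := exists_embedP hp h5 hGp hN k H hH 0
  obtain ⟨N, j1, j2, j3, j4, j5, hGQ, hN'⟩ := ar3_gal hp hcj L hL.1
  obtain ⟨K₀, k1, k2, k3, hr, hQ⟩ := ar4_real (F := F) N hGQ
  have hGL := hL.1.1
  have hGF := hN'.1
  refine ⟨K₀, k1, k2, hr, N, j1, j2, j3, k3, hQ, hGQ, hN', ?_⟩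
  let res : (N ≃ₐ[F] N) →* (L ≃ₐ[F] L) := AlgEquiv.restrictNormalHom L
  have hres : Function.Surjective res := AlgEquiv.restrictNormalHom_surjective N
  let e : H ≃* ψ.range := MonoidHom.ofInjective hψ
  refine ⟨ψ.range.comap res, (e.symm : ψ.range →* H).comp (res.subgroupComap ψ.range), ?_⟩
  intro h
  obtain ⟨g, hg⟩ := hres (e h)
  refine ⟨⟨g, ?_⟩, ?_⟩
  · rw [Subgroup.mem_comap, hg]
    exact (e h).2
  · have h1 : res.subgroupComap ψ.range ⟨g, by rw [Subgroup.mem_comap, hg]; exact (e h).2⟩ = e h :=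
      Subtype.ext hg
    show e.symm _ = h
    rw [h1]
    exact e.symm_apply_apply h

end H28T
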