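import Mathlib
import Pool.Agent.Lib.H28T.CD
import Pool.Agent.Lib.H55K.BH1
import Pool.Agent.Lib.H55K.FD
import Pool.Agent.Lib.H55R.BF2

/-! # H28T: the largest class -/

open NumberField IsDedekindDomain WeierstrassCurve

namespace H28T

open H55P H55R
open H55K H55K.TQ

variable {F : Type} [Field F] [NumberField F] {W₀ : WeierstrassCurve (𝓞 F)} {p : ℕ}

/-- v is not above p, and if v does not divide the discriminant then p does not divide the number of points modulo v. -/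
def Gx (W₀ : WeierstrassCurve (𝓞 F)) (p : ℕ) (v : HeightOneSpectrum (𝓞 F)) : Prop :=
  (p : 𝓞 F) ∉ v.asIdeal ∧ (W₀.Δ ∉ v.asIdeal → ¬ p ∣ Nat.card (W₀⁄(𝓞 F ⧸ v.asIdeal)).toAffine.Point)

theorem gx_of_gd {v : HeightOneSpectrum (𝓞 F)} (h : Gd W₀ p v) : Gx W₀ p v := ⟨h.2.1, fun _ => h.2.2⟩

theorem ce_es {K : Type} [Field K] [NumberField K] [Algebra F K] [IsGalois F K] (W : Pl K) :
    es F K (W.under (𝓞 F)) = W.asIdeal.ramificationIdx (𝓞 F) := by
  have hvp := (W.under (𝓞 F)).isPrime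
  have hwp := W.isPrime
  have hl : W.asIdeal.LiesOver (W.under (𝓞 F)).asIdeal := (BF2_mem (W.under (𝓞 F)) W rfl).2
  unfold es
  rw [Ideal.ramificationIdxIn_eq_ramificationIdx (W.under (𝓞 F)).asIdeal W.asIdeal Gal(K/F)]

/-- p is unramified in K/F. -/
theorem ce_unr (hp : p.Prime) (hU : H55P.UnrP p F) {G : HeightOneSpectrum (𝓞 F) → Prop}
    (hG : ∀ v, G v → (p : 𝓞 F) ∉ v.asIdeal) {K : Type} [Field K] [NumberField K] [Algebra F K]
    (h : ExtG G p K) : H55P.UnrP p K := by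
  have hGal : IsGalois F K := h.1
  rw [unr_iff hp] at hU ⊢
  intro W hW
  have hpW : (p : 𝓞 K) ∈ W.asIdeal := Ideal.pow_le_self two_ne_zero hW
  have hpv : (p : 𝓞 F) ∈ (W.under (𝓞 F)).asIdeal := by
    show algebraMap (𝓞 F) (𝓞 K) (p : 𝓞 F) ∈ W.asIdeal
    rw [map_natCast]
    exact hpW
  have hr : W.asIdeal.ramificationIdx (𝓞 F) = 1 :=
    h.2.2 W (W.under (𝓞 F)) rfl (fun hg => hG _ hg hpv)
  have hes : es F K (W.under (𝓞 F)) = 1 := (ce_es W).trans hr
  have hp0 : (p : F) ≠ 0 := Nat.cast_ne_zero.mpr hp.ne_zero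
  have h1 := ord_map W (W.under (𝓞 F)) rfl (Units.mk0 (p : F) hp0)
  rw [hes, Nat.cast_one, one_mul] at h1
  have h2 : ¬ ((2 : ℕ) : ℤ) ≤ ord (W.under (𝓞 F)) (Units.mk0 (p : F) hp0) := by
    rw [ord_int (W.under (𝓞 F)) (p : 𝓞 F) (Units.mk0 (p : F) hp0) (by simp)]
    exact hU _
  have h3 : ((2 : ℕ) : ℤ) ≤ ord W (Units.map (algebraMap F K : F →* K) (Units.mk0 (p : F) hp0)) := by
    rw [ord_int W (p : 𝓞 K) _ (by simp)]
    exact hW
  rw [h1] at h3
  exact h2 h3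

/-- The class InPF consists of the subfields of the fields in ExtG. -/
theorem inPF_iff (hp : p.Prime) (hU : H55P.UnrP p F) (K : Type) [Field K] [NumberField K] :
    InPF W₀ p K ↔ ∃ (L : Type) (_ : Field L) (_ : NumberField L) (_ : Algebra F L) (_ : Algebra K L),
      ExtG (Gx W₀ p) p L := by
  constructor
  · rintro ⟨L, i1, i2, i3, i4, h1, h2, h3, h4⟩
    refine ⟨L, i1, i2, i3, i4, h1, h2, ?_⟩
    intro w v hv hng
    by_contra hne
    apply hng
    have hvw : w.under (𝓞 F) = v := HeightOneSpectrum.ext hv.symm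
    refine ⟨fun hpv => ?_, fun hΔ hd => hne (h4 w v hv hΔ hd)⟩
    have hes : es F L v ≠ 1 := by
      rw [← hvw, ce_es w]
      exact hne
    have hpos : 0 < es F L v := es_pos v
    have hp0 : (p : F) ≠ 0 := Nat.cast_ne_zero.mpr hp.ne_zero
    have h5 := ord_map w v hvw (Units.mk0 (p : F) hp0)
    have h6 : ((1 : ℕ) : ℤ) ≤ ord v (Units.mk0 (p : F) hp0) := by
      rw [ord_int v (p : 𝓞 F) (Units.mk0 (p : F) hp0) (by simp), pow_one]
      exact hpv
    have h7 : ((2 : ℕ) : ℤ) ≤ ord w (Units.map (algebraMap F L : F →* L) (Units.mk0 (p : F) hp0)) := by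
      rw [h5]
      have h8 : (2 : ℤ) ≤ (es F L v : ℤ) := by omega
      push_cast at h6 ⊢
      nlinarith
    rw [ord_int w (p : 𝓞 L) _ (by simp)] at h7
    exact (unr_iff hp).1 h3 w h7
  · rintro ⟨L, i1, i2, i3, i4, h⟩
    exact ⟨L, i1, i2, i3, i4, h.1, h.2.1, ce_unr hp hU (fun v hv => hv.1) h,
      fun w v hv hΔ hd => h.2.2 w v hv fun hg => hg.2 hΔ hd⟩

end H28T
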