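import Mathlib
import Pool.Agent.Lib.H28T.CB1
import Pool.Agent.Lib.H28T.CB2
import Pool.Agent.Lib.H28T.CB3A
import Pool.Agent.Lib.H28T.CE
import Pool.Agent.Lib.H28T.DT

open NumberField IsDedekindDomain WeierstrassCurve

namespace H28T

open H55P H55R
open H35P (WAB Ker tt)
open H55K H55K.TQ


variable {F : Type} [Field F] [NumberField F] [IQ F] {W₀ : WeierstrassCurve (𝓞 F)} {Om : ℂ}
    {m : Ideal (𝓞 F)} {ψ : Ideal (𝓞 F) →*₀ 𝓞 F} {p : ℕ}

/-- Chunk CB3 (M), the port of H28R.exists_nice (H28R/W5.lean). Given K, C, ζ, hK : ExtG (Gd W₀ p) p K, hC : Cyc F p K C ζ, B, S. Ω = AlgebraicClosure F; C is algebraic over F: IsAlgClosed.lift : C →ₐ[F] Ω makes Ω a C-algebra and a K-algebra (composition with K → C; the towers by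
IsScalarTower.of_algebraMap_eq). π from cb1_pi. The data A, B, j, act, hD : Dta A B Om j act m ψ p from exists_dta hH hp (DT.lean). D from exists_TFld C (K1A.lean). finrank C D ≠ 1: otherwise algebraMap C D is surjective (end of H28R/W3.lean, rank_ne), every s with Fxd C s satisfies Fxd D s,
so it fixes Tor act π (hD'.crd, H55K.ac_fix): contradiction to cb2_not (cb0_unr: UnrP p K). S' from cb3a_split. Apply H28R.exists_nonsplit C D to the union of S, S', the primes containing p and those containing the image of W₀.Δ (not zero: hH.data.ell) (H28R.W5_fin_mem), the primes with es F C (w.under) ≠ 1 (H55R.ram_fin F C and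
H55R.above_finite, as H28R.W5_fin_ram), the primes of norm ≤ B (H28R.W5_fin_norm). w has prime norm q and does not split. Nice: as in H28R.exists_nice: fs F C v = 1, absNorm v = absNorm w, inertia degree and ramification index 1. Good: if ¬ Gd W₀ p v, then p ∣ absNorm v - 1 (H28R.W5_dvd with hC.prim),
π ∣ ψ v - 1 (cb1_dvd), so w splits in D (cb3a_split): contradiction (Spl C D w is es = 1 and fs = 1). -/
theorem cb3_niceG (hH : BaseH F W₀ Om m ψ) (hp : PrimeH F W₀ p) {G : HeightOneSpectrum (𝓞 F) → Prop}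
    (hG : ∀ v, Gd W₀ p v → G v) (hG' : ∀ v, G v → (p : 𝓞 F) ∉ v.asIdeal) : NiceH G p := by
  classical
  intro K C _ _ _ _ _ _ _ _ ζ hK hC B₀ S hS
  have hgal : IsGalois F C := hC.gal
  have hF : IsScalarTower ℚ F C := IsScalarTower.of_algebraMap_eq' (Subsingleton.elim _ _)
  have hfin : FiniteDimensional F C := Module.Finite.of_restrictScalars_finite ℚ F C
  have halg : Algebra.IsAlgebraic F C := Algebra.IsAlgebraic.of_finite F C
  let iC : C →ₐ[F] AlgebraicClosure F := IsAlgClosed.lift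
  let algC : Algebra C (AlgebraicClosure F) := iC.toRingHom.toAlgebra
  let algK : Algebra K (AlgebraicClosure F) := (iC.toRingHom.comp (algebraMap K C)).toAlgebra
  have t1 : IsScalarTower K C (AlgebraicClosure F) := IsScalarTower.of_algebraMap_eq fun _ => rfl
  have t2 : IsScalarTower F C (AlgebraicClosure F) :=
    IsScalarTower.of_algebraMap_eq fun x => (iC.commutes x).symm
  have t3 : IsScalarTower F K (AlgebraicClosure F) := by
    refine IsScalarTower.of_algebraMap_eq fun x => ?_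
    show algebraMap F (AlgebraicClosure F) x = iC (algebraMap K C (algebraMap F K x))
    rw [← IsScalarTower.algebraMap_apply F K C, iC.commutes]
  obtain ⟨A, B, j, act, hDt⟩ := exists_dta hH hp
  obtain ⟨π, hπ, hπd⟩ := cb1_pi (F := F) hp.prime
  obtain ⟨D, _, _, _, _, _, t4, t5, t6, hD⟩ := exists_TFld hDt.cma C hπ.ne_zero
  have hgalD : IsGalois C D := hD.gal
  have hrk : Module.finrank C D ≠ 1 := by
    intro h1
    apply cb2_not (K := K) (C := C) hDt (ce_unr hp.prime hp.unr hG' hK) hC hπ hπd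
    intro s hs T hT
    have hsurj : Function.Surjective (algebraMap C D) := by
      intro y
      obtain ⟨v, hv⟩ := finrank_eq_one_iff'.1 h1
      obtain ⟨hv0, hv1⟩ := hv
      obtain ⟨c, hc⟩ := hv1 y
      obtain ⟨c1, hc1⟩ := hv1 1
      have hc10 : c1 ≠ 0 := by
        rintro rfl
        rw [zero_smul] at hc1
        exact zero_ne_one hc1
      refine ⟨c / c1, ?_⟩
      have e : v = c1⁻¹ • (1 : D) := by
        rw [← hc1, smul_smul, inv_mul_cancel₀ hc10, one_smul]
      rw [← hc, e, smul_smul, Algebra.smul_def, mul_one, div_eq_mul_inv]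
    have hfx : ∀ y : D, s (algebraMap D (AlgebraicClosure F) y) = algebraMap D (AlgebraicClosure F) y := by
      intro y
      obtain ⟨c, rfl⟩ := hsurj y
      rw [← IsScalarTower.algebraMap_apply C D (AlgebraicClosure F)]
      exact hs c
    obtain ⟨x, y, hx, hy⟩ := hD.crd T hT
    exact ac_fix s (by rw [← hx, hfx x]) (by rw [← hy, hfx y])
  obtain ⟨S', hS', hspl⟩ := cb3a_split (C := C) (D := D) hDt hπ hπd hD
  have hΔC : algebraMap (𝓞 F) (𝓞 C) W₀.Δ ≠ 0 := by
    intro h0
    apply hH.data.ell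
    apply RingOfIntegers.ext
    have h1 : algebraMap F C ((W₀.Δ : 𝓞 F) : F) = 0 := congrArg (fun x : 𝓞 C => (x : C)) h0
    rw [map_eq_zero] at h1
    exact h1
  have hpC : ((p : ℕ) : 𝓞 C) ≠ 0 := Nat.cast_ne_zero.2 hp.prime.ne_zero
  have hram : {w : Pl C | es F C (w.under (𝓞 F)) ≠ 1}.Finite :=
    (ram_fin F C).preimage' (f := fun w : Pl C => w.under (𝓞 F)) fun b _ => above_finite b
  obtain ⟨w, hwS, hwN, hwns⟩ := H28R.exists_nonsplit C D hrk
    (S ∪ (S' ∪ ({w : Pl C | algebraMap (𝓞 F) (𝓞 C) W₀.Δ ∈ w.asIdeal} ∪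
      ({w : Pl C | (p : 𝓞 C) ∈ w.asIdeal} ∪
        ({w : Pl C | es F C (w.under (𝓞 F)) ≠ 1} ∪ {w : Pl C | Ideal.absNorm w.asIdeal ≤ B₀})))))
    (hS.union (hS'.union ((H28R.W5_fin_mem _ hΔC).union ((H28R.W5_fin_mem _ hpC).union
      (hram.union (H28R.W5_fin_norm B₀))))))
  simp only [Set.mem_union, not_or] at hwS
  obtain ⟨hw1, hwS', hwd, hwp, hwe, hwB⟩ := hwS
  have hwd' : algebraMap (𝓞 F) (𝓞 C) W₀.Δ ∉ w.asIdeal := hwd
  have hwp' : (p : 𝓞 C) ∉ w.asIdeal := hwp
  have hwe' : es F C (w.under (𝓞 F)) = 1 := not_not.1 hwe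
  have hwB' : B₀ < Ideal.absNorm w.asIdeal := not_le.1 hwB
  refine ⟨w, hw1, ?_⟩
  have hwpr := w.isPrime
  let v : Pl F := w.under (𝓞 F)
  have hvpr := v.isPrime
  have hlies : w.asIdeal.LiesOver v.asIdeal := ⟨rfl⟩
  have hnorm := D5_norm v w rfl
  have hfs : fs F C v = 1 := by
    have hpos := fs_pos (L := C) v
    by_contra hne
    have h2 : 2 ≤ fs F C v := by omega
    rw [hnorm] at hwN
    exact Nat.Prime.not_prime_pow h2 hwN
  rw [hfs, pow_one] at hnorm
  have hgood : Gd W₀ p v := by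
    by_contra hng
    have hvd : W₀.Δ ∉ v.asIdeal := fun hm => hwd' hm
    have hvp : (p : 𝓞 F) ∉ v.asIdeal := by
      intro hm
      apply hwp'
      have h1 : algebraMap (𝓞 F) (𝓞 C) (p : 𝓞 F) ∈ w.asIdeal := hm
      rwa [map_natCast] at h1
    have hdv : p ∣ Ideal.absNorm v.asIdeal - 1 := by
      rw [← hnorm]
      exact H28R.W5_dvd hp.prime hC.prim w hwp'
    have hbd := cb1_dvd hH hvd hvp hdv hng hπ hπd
    exact hwns (hspl w hwS' hwN hbd)
  refine ⟨?_, ?_, ?_, hwB'⟩
  · rw [← Ideal.inertiaDegIn_eq_inertiaDeg v.asIdeal w.asIdeal Gal(C/F)]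
    exact hfs
  · rw [← Ideal.ramificationIdxIn_eq_ramificationIdx v.asIdeal w.asIdeal Gal(C/F)]
    exact hwe'
  · intro v' hv'
    have e : v' = v := HeightOneSpectrum.ext hv'
    rw [e]
    exact hG v hgood

theorem cb3_nice (hH : BaseH F W₀ Om m ψ) (hp : PrimeH F W₀ p) : NiceH (Gd W₀ p) p :=
  cb3_niceG hH hp (fun _ h => h) fun _ h => h.2.1

end H28T
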