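import Mathlib

namespace H28T

theorem cc1a_jac {D l : ℕ} (hD : 0 < D) (hlD : 4 * D ∣ l + 1) : jacobiSym (-(D : ℤ)) l = -1 := by
  obtain ⟨k, hk⟩ := hlD
  have hk0 : 0 < k := by
    rcases Nat.eq_zero_or_pos k with rfl | h
    · omega
    · exact h
  obtain ⟨k', rfl⟩ : ∃ k', k = k' + 1 := ⟨k - 1, by omega⟩
  have hlodd : Odd l := by
    refine ⟨2 * (D * (k' + 1)) - 1, ?_⟩
    have h1 : 4 * D * (k' + 1) = 4 * (D * (k' + 1)) := by ring
    have h2 : 0 < D * (k' + 1) := Nat.mul_pos hD (Nat.succ_pos _)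
    omega
  have hmod : l % (4 * D) = 4 * D - 1 := by
    have h1 : l = (4 * D - 1) + 4 * D * k' := by
      have h2 : 4 * D * (k' + 1) = 4 * D * k' + 4 * D := by ring
      omega
    rw [h1, Nat.add_mul_mod_self_left, Nat.mod_eq_of_lt (by omega)]
  have hodd : Odd (4 * D - 1) := ⟨2 * D - 1, by omega⟩
  have h1 : jacobiSym (-(D : ℤ)) l = jacobiSym (-(D : ℤ)) (4 * D - 1) := by
    rw [jacobiSym.mod_right _ hlodd, Int.natAbs_neg, Int.natAbs_natCast, hmod]
  have h2 : jacobiSym 4 (4 * D - 1) = 1 := by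
    have h3 : (4 : ℤ) = 2 ^ 2 := by norm_num
    rw [h3]
    refine jacobiSym.sq_one' ?_
    have h4 : Nat.Coprime 2 (4 * D - 1) := hodd.coprime_two_left
    exact_mod_cast h4
  have h3 : jacobiSym (-(D : ℤ)) (4 * D - 1) = jacobiSym (-1) (4 * D - 1) := by
    have h4 : jacobiSym (4 * (-(D : ℤ))) (4 * D - 1) = jacobiSym (-1) (4 * D - 1) := by
      refine jacobiSym.mod_left' ?_
      have h5 : ((4 * D - 1 : ℕ) : ℤ) = 4 * D - 1 := by
        rw [Nat.cast_sub (by omega)]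
        push_cast
        ring
      rw [h5]
      have h6 : (4 * (-(D : ℤ))) = -1 + (4 * D - 1) * (-1) := by ring
      rw [h6, Int.add_mul_emod_self_left]
    rw [jacobiSym.mul_left, h2, one_mul] at h4
    exact h4
  rw [h1, h3, jacobiSym.at_neg_one hodd, ZMod.χ₄_nat_three_mod_four (by omega)]

/-- Chunk CC1A (S/M). Let D > 0, l a prime number, l ≡ -1 modulo 4 D. Then -D is not a square modulo l. jacobiSym.mod_right (J(a | b) = J(a | b % (4 * a.natAbs)) for odd b): J(-D | l) = J(-D | 4 D - 1) (l is odd; l % (4 D) = 4 D - 1). J(-D | 4 D - 1) = J(-4 D | 4 D - 1) (J(4 | odd) = J(2)^2 = 1: jacobiSym.mul_left, sq_one'),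
-4 D ≡ -1 modulo 4 D - 1 (jacobiSym.mod_left'), J(-1 | 4 D - 1) = -1 because 4 D - 1 ≡ 3 modulo 4 (jacobiSym.at_neg_one, ZMod.χ₄_nat_three_mod_four). So the symbol is -1; jacobiSym for the prime l is the Legendre symbol (jacobiSym.legendreSym.to_jacobiSym), legendreSym.eq_neg_one_iff or eq_one_iff. -/
theorem cc1a_sq {D l : ℕ} (hD : 0 < D) (hl : l.Prime) (hlD : 4 * D ∣ l + 1) (x : ℤ) : ¬ (l : ℤ) ∣ x ^ 2 + D := by
  intro hdvd
  have : Fact l.Prime := ⟨hl⟩
  have h1 := cc1a_jac hD hlD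
  rw [← jacobiSym.legendreSym.to_jacobiSym, legendreSym.eq_neg_one_iff] at h1
  apply h1
  refine ⟨(x : ZMod l), ?_⟩
  have h2 : ((x ^ 2 + D : ℤ) : ZMod l) = 0 := (ZMod.intCast_zmod_eq_zero_iff_dvd _ l).2 hdvd
  push_cast at h2 ⊢
  linear_combination -h2

end H28T
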