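import Mathlib
import Pool.Agent.Lib.H55K.RD
import Pool.Agent.Lib.H55R.X11

open NumberField IsDedekindDomain WeierstrassCurve

namespace H28T

open H55P H55R
open H55K H55K.TQ

variable {F : Type} [Field F] [NumberField F] [IQ F]

/-- Chunk CC1B (S/M). δ in 𝓞 F with cj δ = -δ, D = Nm δ, δ ≠ 0: δ^2 = -D (mul_cj). l a prime number with -D not a square modulo l: l is a prime element of 𝓞 F. Let v be a prime of F containing l (l is not a unit: H55K.Nm_nat). absNorm v divides Nm l = l^2 (v divides (l)) and is not 1, so it is l or l^2. If absNorm v = l, the residue field 𝓞 F ⧸ v has l elements, so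
the map ZMod l → 𝓞 F ⧸ v (or ℤ → 𝓞 F ⧸ v) is surjective: there is an integer x with δ - x in v, so x^2 + D = (x - δ)(x + δ) in v, and it is an integer in v: divisible by l (otherwise 1 in v; the integers in v are the multiples of l), contradiction. So absNorm v = l^2 = absNorm (l), v divides (l) and v = (l): (l) = v J, absNorm J = 1, J = ⊤.
Ideal.span_singleton_prime. -/
theorem cc1b_inert {δ : 𝓞 F} (hδ : cj δ = -δ) (h0 : δ ≠ 0) {l : ℕ} (hl : l.Prime)
    (hD : ∀ x : ℤ, ¬ (l : ℤ) ∣ x ^ 2 + (Nm δ : ℕ)) : Prime ((l : ℕ) : 𝓞 F) := by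
  have hsq : δ ^ 2 = -((Nm δ : ℕ) : 𝓞 F) := by
    have h1 := mul_cj δ
    rw [hδ] at h1
    linear_combination -h1
  have hl0 : ((l : ℕ) : 𝓞 F) ≠ 0 := by
    exact_mod_cast hl.ne_zero
  have hN : Ideal.absNorm (Ideal.span {((l : ℕ) : 𝓞 F)}) = l ^ 2 := Nm_nat l
  have hne : Ideal.span {((l : ℕ) : 𝓞 F)} ≠ ⊤ := by
    intro h
    rw [h, Ideal.absNorm_top] at hN
    have := hl.one_lt
    nlinarith
  obtain ⟨v, hv, hlv⟩ := Ideal.exists_le_maximal _ hne
  have hlm : ((l : ℕ) : 𝓞 F) ∈ v := hlv (Ideal.mem_span_singleton_self _)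
  have hdv : Ideal.absNorm v ∣ l ^ 2 := by
    rw [← hN]
    exact Ideal.absNorm_dvd_absNorm_of_le hlv
  have hint : ∀ y : ℤ, (y : 𝓞 F) ∈ v → (l : ℤ) ∣ y := by
    intro y hy
    by_contra hcon
    have hcop : IsCoprime (l : ℤ) y := by
      rw [Int.isCoprime_iff_gcd_eq_one]
      have h1 := (Nat.Prime.coprime_iff_not_dvd hl (n := y.natAbs)).2
        (fun h => hcon (Int.natCast_dvd.2 h))
      simpa [Int.gcd] using h1
    obtain ⟨a, b, hab⟩ := hcop
    apply hv.ne_top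
    rw [Ideal.eq_top_iff_one]
    have h1 : (1 : 𝓞 F) = (a : 𝓞 F) * (l : 𝓞 F) + (b : 𝓞 F) * (y : 𝓞 F) := by
      have h2 := congrArg (fun z : ℤ => (z : 𝓞 F)) hab
      push_cast at h2
      exact h2.symm
    rw [h1]
    exact v.add_mem (v.mul_mem_left _ hlm) (v.mul_mem_left _ hy)
  have hnl : Ideal.absNorm v ≠ l := by
    intro h
    have h1 : Nat.card (𝓞 F ⧸ v) = l := by
      rw [← h]
      rfl
    have : Fact l.Prime := ⟨hl⟩
    have : Nontrivial (𝓞 F ⧸ v) := Ideal.Quotient.nontrivial_iff.2 hv.ne_top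
    have h2 : (Ideal.Quotient.mk v δ) ∈ AddSubgroup.zmultiples (1 : 𝓞 F ⧸ v) :=
      mem_zmultiples_of_prime_card h1 one_ne_zero
    rw [AddSubgroup.mem_zmultiples_iff] at h2
    obtain ⟨x, hx⟩ := h2
    have h3 : δ - (x : 𝓞 F) ∈ v := by
      rw [← Ideal.Quotient.eq_zero_iff_mem, map_sub, ← hx]
      simp
    have h4 : ((x ^ 2 + (Nm δ : ℕ) : ℤ) : 𝓞 F) ∈ v := by
      have h5 : ((x ^ 2 + (Nm δ : ℕ) : ℤ) : 𝓞 F) = (-(δ + (x : 𝓞 F))) * (δ - (x : 𝓞 F)) := by
        push_cast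
        linear_combination hsq
      rw [h5]
      exact v.mul_mem_left _ h3
    exact hD x (hint _ h4)
  have hn2 : Ideal.absNorm v = l ^ 2 := by
    rcases (Nat.dvd_prime_pow hl).1 hdv with ⟨k, hk, hk2⟩
    interval_cases k
    · exfalso
      rw [pow_zero, Ideal.absNorm_eq_one_iff] at hk2
      exact hv.ne_top hk2
    · exact absurd (by rw [hk2, pow_one]) hnl
    · exact hk2
  have hvs : Ideal.span {((l : ℕ) : 𝓞 F)} = v := by
    obtain ⟨J, hJ⟩ := Ideal.dvd_iff_le.2 hlv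
    have h1 : Ideal.absNorm v * Ideal.absNorm J = l ^ 2 := by
      rw [← map_mul, ← hJ, hN]
    rw [hn2] at h1
    have h2 : Ideal.absNorm J = 1 := by
      have h3 : 0 < l ^ 2 := pow_pos hl.pos 2
      exact Nat.eq_of_mul_eq_mul_left h3 (by rw [h1, mul_one])
    rw [Ideal.absNorm_eq_one_iff] at h2
    rw [hJ, h2, Ideal.mul_top]
  rw [← Ideal.span_singleton_prime hl0, hvs]
  exact hv.isPrime

end H28T
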