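import Mathlib
import Pool.Agent.Lib.H28T.CC1A
import Pool.Agent.Lib.H28T.CC1B
import Pool.Agent.Lib.H55K.NK2

open NumberField IsDedekindDomain WeierstrassCurve

namespace H28T

open H55P H55R
open H55K H55K.TQ

variable {F : Type} [Field F] [NumberField F] [IQ F]

/-- Chunk CC1 (S/M). δ from nk2_delta (NK2.lean), D = Nm δ, p ∤ D, D ≠ 0. Q = 4 D N is prime to p^n (p is odd): Nat.chineseRemainder gives a with a ≡ -1 modulo Q (that is Q - 1), a ≡ 1 modulo p^n; a is prime to Q p^n; Dirichlet: Nat.forall_exists_prime_gt_and_modEq (see H28R/A4.lean). cc1a_sq, cc1b_inert. -/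
theorem cc1_dir {p : ℕ} (hp : p.Prime) (hp2 : p ≠ 2) (hU : UnrP p F) {N : ℕ} (hN : ¬ p ∣ N) (n B : ℕ) :
    ∃ l : ℕ, l.Prime ∧ B < l ∧ p ^ n ∣ l - 1 ∧ N ∣ l + 1 ∧ Prime ((l : ℕ) : 𝓞 F) := by
  obtain ⟨δ, hδ, hpD⟩ := nk2_delta hp hp2 hU
  have hD0 : Nm δ ≠ 0 := by
    intro h
    rw [h] at hpD
    exact hpD (dvd_zero p)
  have hδ0 : δ ≠ 0 := by
    intro h
    apply hD0
    have h1 := Nm_nat (F := F) 0
    rw [h]
    simpa using h1
  have hN0 : N ≠ 0 := by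
    intro h
    rw [h] at hN
    exact hN (dvd_zero p)
  obtain ⟨q, hq⟩ : ∃ q, q = 4 * Nm δ * N := ⟨_, rfl⟩
  have hp4 : ¬ p ∣ 4 := by
    intro h
    have h1 : p ∣ 2 := by
      have h2 : p ∣ 2 ^ 2 := by simpa using h
      exact hp.dvd_of_dvd_pow h2
    have h2 := (Nat.prime_dvd_prime_iff_eq hp Nat.prime_two).1 h1
    exact hp2 h2
  have hpq : ¬ p ∣ q := by
    rw [hq]
    intro h
    rcases (Nat.Prime.dvd_mul hp).1 h with h1 | h1
    · rcases (Nat.Prime.dvd_mul hp).1 h1 with h2 | h2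
      · exact hp4 h2
      · exact hpD h2
    · exact hN h1
  have hq0 : q ≠ 0 := by
    rintro rfl
    exact hpq (dvd_zero p)
  have hcop : Nat.Coprime q (p ^ n) :=
    Nat.Coprime.pow_right n ((Nat.Prime.coprime_iff_not_dvd hp).2 hpq).symm
  obtain ⟨a, ha1, ha2⟩ := Nat.chineseRemainder hcop (q - 1) 1
  have hac1 : Nat.Coprime a q := by
    have h1 : Nat.gcd a q = Nat.gcd (q - 1) q := ha1.gcd_eq
    unfold Nat.Coprime
    rw [h1]
    have h2 : Nat.Coprime (q - 1) (q - 1 + 1) := by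
      rw [Nat.coprime_self_add_right]
      exact Nat.coprime_one_right _
    rwa [Nat.sub_add_cancel (Nat.pos_of_ne_zero hq0)] at h2
  have hac2 : Nat.Coprime a (p ^ n) := by
    have h1 : Nat.gcd a (p ^ n) = Nat.gcd 1 (p ^ n) := ha2.gcd_eq
    unfold Nat.Coprime
    rw [h1, Nat.gcd_one_left]
  have hac : Nat.Coprime a (q * p ^ n) := Nat.Coprime.mul_right hac1 hac2
  have hm0 : q * p ^ n ≠ 0 := mul_ne_zero hq0 (pow_ne_zero _ hp.ne_zero)
  obtain ⟨l, hlB, hl, hla⟩ := Nat.forall_exists_prime_gt_and_modEq B hm0 hac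
  have hl1 : l ≡ q - 1 [MOD q] := (hla.of_mul_right _).trans ha1
  have hl2 : l ≡ 1 [MOD p ^ n] := (hla.of_mul_left _).trans ha2
  have hql : q ∣ l + 1 := by
    have h1 : l + 1 ≡ q - 1 + 1 [MOD q] := hl1.add_right 1
    rw [Nat.sub_add_cancel (Nat.pos_of_ne_zero hq0)] at h1
    have h2 : l + 1 ≡ 0 [MOD q] := h1.trans (by simp [Nat.ModEq])
    exact (Nat.modEq_zero_iff_dvd).1 h2
  have h4D : 4 * Nm δ ∣ l + 1 := dvd_trans ⟨N, hq⟩ hql
  refine ⟨l, hl, hlB, ?_, ?_, ?_⟩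
  · exact (Nat.modEq_iff_dvd' hl.one_le).1 hl2.symm
  · exact dvd_trans ⟨4 * Nm δ, by rw [hq]; ring⟩ hql
  · exact cc1b_inert hδ hδ0 hl fun x => cc1a_sq (Nat.pos_of_ne_zero hD0) hl h4D x

end H28T
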