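import Mathlib
import Pool.Agent.Lib.H55P.TD

open NumberField IsDedekindDomain

namespace H28T

open H55P

variable {F : Type} [Field F] [NumberField F] [IQ F] {m : Ideal (𝓞 F)} {ψ : Ideal (𝓞 F) →*₀ 𝓞 F}

/-- Chunk CC2A (S). absNorm m divides l + 1 (so l + 1 is in m: Ideal.absNorm_mem). IsHecke.per with x = -l, y = 1: both generate ideals coprime to m (span {-l} ⊔ m contains l + 1 and l: 1 = (l + 1) + (-l)), x - y = -(l + 1) in m: ψ(span {-l}) * 1 = ψ(span {1}) * (-l), ψ(⊤) = 1 (map_one; span {1} = ⊤ = 1), span {-l} = span {l}. -/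
theorem cc2a_psi (hψ : IsHecke m ψ) {l : ℕ} (hl : Ideal.absNorm m ∣ l + 1) :
    ψ (Ideal.span {(l : 𝓞 F)}) = -(l : 𝓞 F) := by
  have hmem : (l : 𝓞 F) + 1 ∈ m := by
    obtain ⟨k, hk⟩ := hl
    have h1 : (l : 𝓞 F) + 1 = (k : 𝓞 F) * (Ideal.absNorm m : 𝓞 F) := by
      have h2 : ((l + 1 : ℕ) : 𝓞 F) = ((Ideal.absNorm m * k : ℕ) : 𝓞 F) := congrArg _ hk
      push_cast at h2
      rw [h2]
      ring
    rw [h1]
    exact m.mul_mem_left _ (Ideal.absNorm_mem m)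
  have hc1 : IsCoprime (Ideal.span {-(l : 𝓞 F)}) m := by
    rw [Ideal.isCoprime_iff_exists]
    exact ⟨-(l : 𝓞 F), Ideal.mem_span_singleton_self _, (l : 𝓞 F) + 1, hmem, by ring⟩
  have hc2 : IsCoprime (Ideal.span {(1 : 𝓞 F)}) m := by
    rw [Ideal.span_singleton_one, ← Ideal.one_eq_top]
    exact isCoprime_one_left
  have h := hψ.per (-(l : 𝓞 F)) 1 hc1 hc2 (by
    have e : -(l : 𝓞 F) - 1 = -((l : 𝓞 F) + 1) := by ring
    rw [e]
    exact m.neg_mem hmem)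
  rw [Ideal.span_singleton_one, ← Ideal.one_eq_top, map_one, mul_one, one_mul,
    Ideal.span_singleton_neg] at h
  exact h

end H28T
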