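import Mathlib
import Pool.Agent.Lib.H28T.CC2A
import Pool.Agent.Lib.H28T.CD
import Pool.Agent.Lib.H55K.BH
import Pool.Agent.Lib.H55K.D1

open NumberField IsDedekindDomain WeierstrassCurve

namespace H28T

open H55P H55R
open H55K H55K.TQ

variable {F : Type} [Field F] [NumberField F] [IQ F] {W₀ : WeierstrassCurve (𝓞 F)} {Om : ℂ}
    {m : Ideal (𝓞 F)} {ψ : Ideal (𝓞 F) →*₀ 𝓞 F} {p : ℕ}

/-- Chunk CC2 (S/M). v contains l, so v.asIdeal = span {l} (span {l} is maximal: prime and not zero). Δ is not in v: otherwise m ≤ v (hH.supp), absNorm m in v (Ideal.absNorm_mem), l + 1 in v, so 1 in v. p is not in v: otherwise l - 1 is in v (p ∣ l - 1; in 𝓞 F: (l : 𝓞 F) - 1), so 1 in v. The number of points is Nm (1 - ψ v) (hH.deu), ψ v = -l (cc2a_psi),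
Nm (1 + l) = (l + 1)^2 (H55K.Nm_nat). p divides l - 1, so not l + 1 (p ≥ 5: otherwise p ∣ 2). -/
theorem cc2_good (hH : BaseH F W₀ Om m ψ) (hp : PrimeH F W₀ p) {l : ℕ} (hl : l.Prime) (hp1 : p ∣ l - 1)
    (hm : Ideal.absNorm m ∣ l + 1) (hin : Prime ((l : ℕ) : 𝓞 F)) : GoodL (Gd W₀ p) l := by
  intro v hv
  have h1v : (1 : 𝓞 F) ∉ v.asIdeal := fun h => v.isPrime.ne_top ((Ideal.eq_top_iff_one _).2 h)
  have hspan : Ideal.span {((l : ℕ) : 𝓞 F)} = v.asIdeal := by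
    have hpr : (Ideal.span {((l : ℕ) : 𝓞 F)}).IsPrime :=
      (Ideal.span_singleton_prime hin.ne_zero).2 hin
    have hmax : (Ideal.span {((l : ℕ) : 𝓞 F)}).IsMaximal :=
      hpr.isMaximal (fun h => hin.ne_zero (Ideal.span_singleton_eq_bot.1 h))
    exact hmax.eq_of_le v.isPrime.ne_top ((Ideal.span_singleton_le_iff_mem _).2 hv)
  have hΔ : W₀.Δ ∉ v.asIdeal := by
    intro h
    have h2 : m ≤ v.asIdeal := (hH.supp v).1 h
    obtain ⟨k, hk⟩ := hm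
    have h3 : ((l + 1 : ℕ) : 𝓞 F) ∈ v.asIdeal := by
      rw [hk, Nat.cast_mul]
      exact v.asIdeal.mul_mem_right _ (h2 (Ideal.absNorm_mem m))
    rw [Nat.cast_add, Nat.cast_one] at h3
    apply h1v
    have e : (1 : 𝓞 F) = ((l : 𝓞 F) + 1) - (l : 𝓞 F) := by ring
    rw [e]
    exact v.asIdeal.sub_mem h3 hv
  refine ⟨hΔ, ?_, ?_⟩
  · intro h
    obtain ⟨k, hk⟩ := hp1
    have h3 : ((l - 1 : ℕ) : 𝓞 F) ∈ v.asIdeal := by
      rw [hk, Nat.cast_mul]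
      exact v.asIdeal.mul_mem_right _ h
    rw [Nat.cast_sub hl.one_lt.le, Nat.cast_one] at h3
    apply h1v
    have e : (1 : 𝓞 F) = (l : 𝓞 F) - ((l : 𝓞 F) - 1) := by ring
    rw [e]
    exact v.asIdeal.sub_mem hv h3
  · rw [hH.deu v hΔ, ← hspan, cc2a_psi hH.data.hecke hm]
    have e : (1 : 𝓞 F) - -(l : 𝓞 F) = ((l + 1 : ℕ) : 𝓞 F) := by push_cast; ring
    rw [e, Nm_nat]
    intro h
    have h2 : p ∣ l + 1 := hp.prime.dvd_of_dvd_pow h
    have h3 : p ∣ (l + 1) - (l - 1) := Nat.dvd_sub h2 hp1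
    have h4 : (l + 1) - (l - 1) = 2 := by
      have := hl.one_lt
      omega
    rw [h4] at h3
    have h5 := Nat.le_of_dvd (by norm_num) h3
    have h6 := hp.five
    omega

end H28T
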