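import Mathlib
import Pool.Agent.Lib.H55K.BH1

open NumberField IsDedekindDomain WeierstrassCurve

namespace H28T

open H55P H55R
open H55K H55K.TQ

variable {F : Type} [Field F] [NumberField F] [IQ F] {W₀ : WeierstrassCurve (𝓞 F)} {Om : ℂ}
    {m : Ideal (𝓞 F)} {ψ : Ideal (𝓞 F) →*₀ 𝓞 F} {p : ℕ}

/-- Chunk CC2B (S/M). p does not divide absNorm m. p is coprime to m (hp.cop and hH.supp: base_of hH hp gives IsCoprime (span {Δ} * m) (span {p}), so IsCoprime m (span {p})). If p divides absNorm m = Nat.card (𝓞 F ⧸ m) (finite additive group), there is an element x of order p in 𝓞 F ⧸ m (exists_prime_addOrderOf_dvd_card'), p x = 0; a + b p = 1 with a in m,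
so x = (a + b p) x = 0, contradiction. -/
theorem cc2b_cop (hH : BaseH F W₀ Om m ψ) (hp : PrimeH F W₀ p) : ¬ p ∣ Ideal.absNorm m := by
  intro hd
  have hcop : IsCoprime m (Ideal.span {(p : 𝓞 F)}) :=
    (base_of hH hp).cop.of_isCoprime_of_dvd_left (dvd_mul_left _ _)
  have hne : Ideal.absNorm m ≠ 0 := fun h => hH.data.hecke.ne (Ideal.absNorm_eq_zero_iff.1 h)
  have hcard : Ideal.absNorm m = Nat.card (𝓞 F ⧸ m) := rfl
  have hfin : Finite (𝓞 F ⧸ m) := Nat.finite_of_card_ne_zero (by rw [← hcard]; exact hne)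
  haveI : Fact p.Prime := ⟨hp.prime⟩
  rw [hcard] at hd
  obtain ⟨x, hx⟩ := exists_prime_addOrderOf_dvd_card' p hd
  obtain ⟨y, rfl⟩ := Ideal.Quotient.mk_surjective x
  rw [Ideal.isCoprime_iff_exists] at hcop
  obtain ⟨a, ha, b, hb, hab⟩ := hcop
  obtain ⟨c, rfl⟩ := Ideal.mem_span_singleton'.1 hb
  have h1 : p • (Ideal.Quotient.mk m y) = 0 := by
    rw [← hx]
    exact addOrderOf_nsmul_eq_zero _
  have h2 : (p : 𝓞 F) * y ∈ m := by
    rw [← Ideal.Quotient.eq_zero_iff_mem, map_mul, map_natCast, ← nsmul_eq_mul]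
    exact h1
  have h3 : y ∈ m := by
    have e : y = a * y + c * ((p : 𝓞 F) * y) := by
      calc y = (a + c * (p : 𝓞 F)) * y := by rw [hab, one_mul]
        _ = a * y + c * ((p : 𝓞 F) * y) := by ring
    rw [e]
    exact m.add_mem (m.mul_mem_right _ ha) (m.mul_mem_left _ h2)
  rw [Ideal.Quotient.eq_zero_iff_mem.2 h3, addOrderOf_zero] at hx
  exact hp.prime.one_lt.ne hx

end H28T
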