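import Mathlib
import Pool.Agent.Lib.H28T.CC1
import Pool.Agent.Lib.H28T.CC2B
import Pool.Agent.Lib.H28T.CC2

open NumberField IsDedekindDomain WeierstrassCurve

namespace H28T

open H55P H55R
open H55K H55K.TQ

variable {F : Type} [Field F] [NumberField F] [IQ F] {W₀ : WeierstrassCurve (𝓞 F)} {Om : ℂ}
    {m : Ideal (𝓞 F)} {ψ : Ideal (𝓞 F) →*₀ 𝓞 F} {p : ℕ}

theorem cc_dirH (hH : BaseH F W₀ Om m ψ) (hp : PrimeH F W₀ p) : DirH (Gd W₀ p) p := by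
  intro n N
  have hpp := hp.prime
  have h5 := hp.five
  obtain ⟨l, h1, h2, h3, h4, h6⟩ := cc1_dir hpp (by omega) hp.unr (cc2b_cop hH hp) (n + 1) N
  have h7 : p ∣ l - 1 := (dvd_pow_self p (Nat.succ_ne_zero n)).trans h3
  exact ⟨l, h1, h2, (pow_dvd_pow p (Nat.le_succ n)).trans h3, cc2_good hH hp h1 h7 h4 h6⟩

end H28T
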