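import Mathlib
import Pool.Agent.Lib.H28T.AQ2
import Pool.Agent.Lib.H28T.AQ3
import Pool.Agent.Lib.H28T.AR2
import Pool.Agent.Lib.H28T.AR5
import Pool.Agent.Lib.H28T.CB3
import Pool.Agent.Lib.H28T.CC3

/-! # H28T: the class of fields is large, for all curves with complex multiplication -/

open NumberField IsDedekindDomain WeierstrassCurve

namespace H28T

open H55P H55R
open H55K H55K.TQ

variable {F : Type} [Field F] [NumberField F] [IQ F] {W₀ : WeierstrassCurve (𝓞 F)} {Om : ℂ}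
    {m : Ideal (𝓞 F)} {ψ : Ideal (𝓞 F) →*₀ 𝓞 F} {p : ℕ}

/-- The class of the Galois extensions K of F of degree a power of p, unramified at p and at the primes v of F which do not divide the
discriminant and at which p divides the number of points, is large; InPF consists of the subfields of the fields of the class. -/
structure Rich (W₀ : WeierstrassCurve (𝓞 F)) (p : ℕ) : Prop where
  /-- InPF consists of the subfields of the fields of the class -/
  cls : ∀ (K : Type) [Field K] [NumberField K], InPF W₀ p K ↔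
    ∃ (L : Type) (_ : Field L) (_ : NumberField L) (_ : Algebra F L) (_ : Algebra K L), ExtG (Gx W₀ p) p L
  /-- subfields of the fields generated by roots of unity of good order -/
  cyc : ∀ (K : Type) [Field K] [NumberField K] [Algebra F K], ExplicitG (Gx W₀ p) K →
    (∃ k : ℕ, Module.finrank F K = p ^ k) → ExtG (Gx W₀ p) p K
  /-- there are many good prime numbers -/
  inf : DirH (Gx W₀ p) p
  /-- every finite abelian p-group is a Galois group, with ramified primes of large norm -/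
  abel : ∀ (A : Type) [CommGroup A] [Finite A] (k : ℕ), Nat.card A = p ^ k → ∀ B : ℕ,
    ∃ (K : Type) (_ : Field K) (_ : NumberField K) (_ : Algebra F K), PB (Gx W₀ p) p K B ∧
      Nonempty ((K ≃ₐ[F] K) ≃* A)
  /-- regular wreath products -/
  wr : ∀ (K : Type) [Field K] [NumberField K] [Algebra F K] (B : ℕ), PB (Gx W₀ p) p K B → WrOver (Gx W₀ p) p K B
  /-- every finite p-group embeds in a Galois group -/
  emb : ∀ (H : Type) [Group H] [Finite H] (k : ℕ), Nat.card H = p ^ k → ∀ B : ℕ, EmbP (Gx W₀ p) p H B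
  /-- Galois extensions of the rationals -/
  rat : ∀ (K₀ : Type) [Field K₀] [NumberField K₀], RatG (Gx W₀ p) p K₀ 0 → InPF W₀ p K₀
  /-- every finite abelian p-group is the Galois group of a totally real field of the class -/
  real : ∀ (A : Type) [CommGroup A] [Finite A] (k : ℕ), Nat.card A = p ^ k → ∀ B : ℕ,
    ∃ (K₀ : Type) (_ : Field K₀) (_ : NumberField K₀), IsTotallyReal K₀ ∧ RatG (Gx W₀ p) p K₀ B ∧
      Nonempty ((K₀ ≃ₐ[ℚ] K₀) ≃* A)

theorem xm_goodL {l : ℕ} (h : GoodL (Gd W₀ p) l) : GoodL (Gx W₀ p) l := fun v hv => gx_of_gd (h v hv)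

theorem xm_dir (hH : BaseH F W₀ Om m ψ) (hp : PrimeH F W₀ p) : DirH (Gx W₀ p) p := by
  intro n N
  obtain ⟨l, h1, h2, h3, h4⟩ := cc_dirH hH hp n N
  exact ⟨l, h1, h2, h3, xm_goodL h4⟩

theorem xm_nice (hH : BaseH F W₀ Om m ψ) (hp : PrimeH F W₀ p) : NiceH (Gx W₀ p) p :=
  cb3_niceG hH hp (fun _ h => gx_of_gd h) fun _ h => h.1

/-- The realisation part over F. -/
theorem rich_of (hH : BaseH F W₀ Om m ψ) (hp : PrimeH F W₀ p) : Rich W₀ p := by
  have hpp := hp.prime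
  have h5 := hp.five
  have hGp : ∀ v : HeightOneSpectrum (𝓞 F), Gx W₀ p v → (p : 𝓞 F) ∉ v.asIdeal := fun v h => h.1
  have hN := xm_nice hH hp
  have hD := xm_dir hH hp
  refine ⟨fun K _ _ => inPF_iff hpp hp.unr K, fun K _ _ _ h hk => exp_ext h hk, hD, ?_,
    fun K _ _ _ B h => exists_wreath hpp h5 hGp hN K B h,
    fun H _ _ k hH B => exists_embedP hpp h5 hGp hN k H hH B, ?_,
    fun A _ _ k hA B => aq2_abelian hpp (by omega) hD A k hA B⟩
  · intro A _ _ k hA B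
    obtain ⟨K₀, i1, i2, -, h1, ⟨e⟩⟩ := aq2_abelian hpp (by omega) hD A k hA B
    obtain ⟨E, j1, j2, j3, j4, h2, ⟨e'⟩⟩ := aq3_of (F := F) hpp (by omega) K₀ h1
    exact ⟨E, j1, j2, j3, h2, ⟨e'.trans e⟩⟩
  · intro K₀ _ _ h
    obtain ⟨E, j1, j2, j3, j4, h2, -⟩ := aq3_of (F := F) hpp (by omega) K₀ h
    rw [inPF_iff hpp hp.unr]
    exact ⟨E, j1, j2, j3, j4, h2.1⟩

/-- The set Gx is stable under conjugation. -/
theorem gx_conj {W : WeierstrassCurve ℤ} {p : ℕ} (v v' : HeightOneSpectrum (𝓞 F))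
    (h : ∀ x : 𝓞 F, cj x ∈ v'.asIdeal ↔ x ∈ v.asIdeal) (hg : Gx (W⁄(𝓞 F)) p v) : Gx (W⁄(𝓞 F)) p v' := by
  have hp' : (p : 𝓞 F) ∉ v'.asIdeal := by
    intro h1
    apply hg.1
    rw [← h, cj_nat]
    exact h1
  refine ⟨hp', fun hΔ => ?_⟩
  have hD : cj (W⁄(𝓞 F)).Δ = (W⁄(𝓞 F)).Δ := by
    have e : (W⁄(𝓞 F)).Δ = ((W.Δ : ℤ) : 𝓞 F) := by
      have e1 : (W⁄(𝓞 F)).Δ = algebraMap ℤ (𝓞 F) W.Δ := W.map_Δ _
      rw [e1]
      simp
    rw [e, cj_int]
  have hΔ' : (W⁄(𝓞 F)).Δ ∉ v.asIdeal := by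
    intro h1
    apply hΔ
    rw [← hD, h]
    exact h1
  exact (ar2_conj v v' h ⟨hΔ', hg.1, hg.2 hΔ'⟩).2.2

/-- Real fields with arbitrarily complicated Galois groups: K₀ is in the class InPF and has a real place, N is the compositum of K₀ and F (a quadratic
extension of K₀), in the class, and H is a subquotient of its Galois group over F. -/
def RealG (W₀ : WeierstrassCurve (𝓞 F)) (p : ℕ) (H : Type) [Group H] : Prop :=
  ∃ (K₀ : Type) (_ : Field K₀) (_ : NumberField K₀), 0 < InfinitePlace.nrRealPlaces K₀ ∧ InPF W₀ p K₀ ∧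
    ∃ (N : Type) (_ : Field N) (_ : NumberField N) (_ : Algebra F N) (_ : Algebra K₀ N),
      Module.finrank K₀ N = 2 ∧ IsGalois ℚ N ∧ ExtG (Gx W₀ p) p N ∧ H28R.SubQ (N ≃ₐ[F] N) H

/-- The realisation part over the rationals. -/
theorem real_Q {W : WeierstrassCurve ℤ} (hH : BaseH F (W⁄(𝓞 F)) Om m ψ) (hp : PrimeH F (W⁄(𝓞 F)) p)
    (H : Type) [Group H] [Finite H] (k : ℕ) (hk : Nat.card H = p ^ k) : RealG (W⁄(𝓞 F)) p H := by
  obtain ⟨K₀, i1, i2, h1, N, j1, j2, j3, j4, h2, h3, h4, h5⟩ :=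
    ar5_real hp.prime hp.five (fun v v' h hg => gx_conj v v' h hg) (fun v h => h.1) (xm_nice hH hp) H k hk
  exact ⟨K₀, i1, i2, h1, (inPF_iff hp.prime hp.unr K₀).2 ⟨N, j1, j2, j3, j4, h4⟩, N, j1, j2, j3, j4, h2, h3, h4, h5⟩

end H28T
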