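import Mathlib
import Pool.Agent.Lib.H28T.CD
import Pool.Agent.Lib.H28T.Gen
import Pool.Agent.Lib.H28T.WSt
import Pool.Agent.Lib.H55K.BH1
import Pool.Agent.Lib.H55K.FD

open NumberField IsDedekindDomain WeierstrassCurve

namespace H28T

open H55P H55R
open H55K H55K.TQ

variable {F : Type} [Field F] [NumberField F] {W₀ : WeierstrassCurve (𝓞 F)} {p : ℕ}

/-- Chunk CB0 (S/M). H55K.TQ.unr_iff for K: let W be a prime of K with p in W^2; v = W.under (𝓞 F) contains p (HeightOneSpectrum, p in W), so ¬ Gd W₀ p v and the ramification index of W over 𝓞 F is 1 (h). By unr_iff for F (hU), p is not in v^2, so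
(p) = v * I with I not contained in v (p in v: (p) is divisible by v and not by v^2; Ideal.dvd_iff_le), so the image of (p) in 𝓞 K is (v 𝓞 K)(I 𝓞 K); I 𝓞 K is not contained in W (W ∩ 𝓞 F = v), and v 𝓞 K is not contained in W^2 because the ramification index is 1
(Ideal.ramificationIdx: the exponent of W in v 𝓞 K; Ideal.ramificationIdx_spec, Ideal.IsDedekindDomain.ramificationIdx_eq_factors_count or emultiplicity); so (p) 𝓞 K is not divisible by W^2 (W prime). Other route: count multiplicities with H55R.ord: ord_map gives ord W p = es * ord v p if K/F is Galois (h.1), es F K v = ramificationIdx = 1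
(Ideal.ramificationIdxIn_eq_ramificationIdx as in the proof of wst_one in H28T/WSt.lean), ord v p = 1 (H55R.ord_int: n ≤ ord v x iff x in v^n), so ord W p = 1 and p is not in W^2 (H55R.ord_int again). The second route is shorter. -/
theorem cb0_unr (hp : p.Prime) (hU : H55P.UnrP p F) {K : Type} [Field K] [NumberField K] [Algebra F K]
    (h : ExtG (Gd W₀ p) p K) : H55P.UnrP p K := by
  have hGal : IsGalois F K := h.1
  rw [unr_iff hp] at hU ⊢
  intro W hW
  have hpW : (p : 𝓞 K) ∈ W.asIdeal := Ideal.pow_le_self two_ne_zero hW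
  have hpv : (p : 𝓞 F) ∈ (W.under (𝓞 F)).asIdeal := by
    show algebraMap (𝓞 F) (𝓞 K) (p : 𝓞 F) ∈ W.asIdeal
    rw [map_natCast]
    exact hpW
  have hr : W.asIdeal.ramificationIdx (𝓞 F) = 1 :=
    h.2.2 W (W.under (𝓞 F)) rfl (fun hg => hg.2.1 hpv)
  have hes : es F K (W.under (𝓞 F)) = 1 := by
    have hvp := (W.under (𝓞 F)).isPrime
    have hwp := W.isPrime
    have hl : W.asIdeal.LiesOver (W.under (𝓞 F)).asIdeal := (BF2_mem (W.under (𝓞 F)) W rfl).2
    unfold es
    rw [Ideal.ramificationIdxIn_eq_ramificationIdx (W.under (𝓞 F)).asIdeal W.asIdeal Gal(K/F)]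
    exact hr
  have hp0 : (p : F) ≠ 0 := Nat.cast_ne_zero.mpr hp.ne_zero
  have h1 := ord_map W (W.under (𝓞 F)) rfl (Units.mk0 (p : F) hp0)
  rw [hes, Nat.cast_one, one_mul] at h1
  have h2 : ¬ ((2 : ℕ) : ℤ) ≤ ord (W.under (𝓞 F)) (Units.mk0 (p : F) hp0) := by
    rw [ord_int (W.under (𝓞 F)) (p : 𝓞 F) (Units.mk0 (p : F) hp0) (by simp)]
    exact hU _
  have h3 : ((2 : ℕ) : ℤ) ≤ ord W (Units.map (algebraMap F K : F →* K) (Units.mk0 (p : F) hp0)) := by
    rw [ord_int W (p : 𝓞 K) _ (by simp)]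
    exact hW
  rw [h1] at h3
  exact h2 h3

/-- The class is contained in InPF. -/
theorem cb0_inP (hp : p.Prime) (hU : H55P.UnrP p F) {K : Type} [Field K] [NumberField K] [Algebra F K]
    (h : ExtG (Gd W₀ p) p K) : InPF W₀ p K :=
  ⟨K, inferInstance, inferInstance, inferInstance, Algebra.id K, h.1, h.2.1, cb0_unr hp hU h,
    fun w v hv _ hd => h.2.2 w v hv (fun hg => hg.2.2 hd)⟩

end H28T
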